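import Pool.Agent.Helper85.BFC.Det.UUBorel

/-!
# Borel determinacy for games with countably many moves, in terms of sequences of moves
-/

set_option autoImplicit false

namespace Pool.Agent.Helper85.Det

open GT

namespace BorelAux

variable {M : Type} [Nonempty M]

/-- head of a list, with a default value -/
noncomputable def hd (l : List M) : M := l.headD (Classical.arbitrary M)

theorem hd_cons (a : M) (l : List M) : hd (a :: l) = a := rfl

/-- a strategy as a map on lists -/
def sf (σ : (listTree M).Strat) : List M → List M := σ.1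

/-- a strategy of the tree of sequences adds one move -/
theorem strat_eq (σ : (listTree M).Strat) (t : List M) : sf σ t = hd (sf σ t) :: t := by
  have h1 : List.tail (sf σ t) = t := (σ.2 t).1
  have h2 : (sf σ t).length = t.length + 1 := (σ.2 t).2
  rcases hs : sf σ t with _ | ⟨a, l⟩
  · rw [hs] at h2; simp at h2
  · rw [hs] at h1
    rw [hd_cons]
    exact congrArg _ h1

/-- the sequence of moves with even part `x` and odd part `y` -/
def mix (x y : ℕ → M) (n : ℕ) : M := if n % 2 = 0 then x (n / 2) else y (n / 2)

omit [Nonempty M] in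
theorem mix_even (x y : ℕ → M) (n : ℕ) : mix x y (2 * n) = x n := by
  unfold mix
  rw [if_pos (by omega)]
  congr 1
  omega

omit [Nonempty M] in
theorem mix_odd (x y : ℕ → M) (n : ℕ) : mix x y (2 * n + 1) = y n := by
  unfold mix
  rw [if_neg (by omega)]
  congr 1
  omega

theorem ofMoves_zero (a : ℕ → M) : ((ofMoves a).1 0 : List M) = [] := rfl

theorem ofMoves_succ (a : ℕ → M) (n : ℕ) :
    ((ofMoves a).1 (n + 1) : List M) = a n :: ((ofMoves a).1 n : List M) := by
  show ((List.range (n + 1)).map a).reverse = a n :: ((List.range n).map a).reverse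
  rw [List.range_succ, List.map_append, List.reverse_append]
  simp

/-- position after the opponent's moves `l`, the first player following `σ` -/
def posA (σ : List M → List M) (l : List M) : List M := l.foldl (fun p y => y :: σ p) []

/-- position after the opponent's moves `l`, the second player following `σ` -/
def posB (σ : List M → List M) (l : List M) : List M := l.foldl (fun p x => σ (x :: p)) []

omit [Nonempty M] in
theorem posA_succ (σ : List M → List M) (y : ℕ → M) (r : ℕ) :
    posA σ ((List.range (r + 1)).map y) = y r :: σ (posA σ ((List.range r).map y)) := by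
  unfold posA
  rw [List.range_succ, List.map_append, List.foldl_append]
  rfl

omit [Nonempty M] in
theorem posB_succ (σ : List M → List M) (x : ℕ → M) (r : ℕ) :
    posB σ ((List.range (r + 1)).map x) = σ (x r :: posB σ ((List.range r).map x)) := by
  unfold posB
  rw [List.range_succ, List.map_append, List.foldl_append]
  rfl

theorem pos_A (σ : (listTree M).Strat) (y : ℕ → M) (r : ℕ) :
    ((ofMoves (mix (fun r => hd (sf σ (posA (sf σ) ((List.range r).map y)))) y)).1 (2 * r) : List M)
      = posA (sf σ) ((List.range r).map y) := by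
  induction r with
  | zero => rfl
  | succ r ih =>
    rw [show 2 * (r + 1) = 2 * r + 1 + 1 by ring, ofMoves_succ, ofMoves_succ, mix_odd, mix_even, ih,
      posA_succ, ← strat_eq]

theorem pos_B (σ : (listTree M).Strat) (x : ℕ → M) (r : ℕ) :
    ((ofMoves (mix x (fun r => hd (posB (sf σ) ((List.range (r + 1)).map x))))).1 (2 * r) : List M)
      = posB (sf σ) ((List.range r).map x) := by
  induction r with
  | zero => rfl
  | succ r ih =>
    rw [show 2 * (r + 1) = 2 * r + 1 + 1 by ring, ofMoves_succ, ofMoves_succ, mix_odd, mix_even, ih,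
      posB_succ, ← strat_eq]

theorem follows_A (σ : (listTree M).Strat) (y : ℕ → M) :
    Follows false σ (ofMoves (mix (fun r => hd (sf σ (posA (sf σ) ((List.range r).map y)))) y)) := by
  intro n hn
  obtain ⟨r, rfl⟩ : ∃ r, n = 2 * r := by
    refine ⟨n / 2, ?_⟩
    have := Nat.mod_two_of_bodd n
    rw [hn] at this
    simp at this
    omega
  show ((ofMoves _).1 (2 * r + 1) : List M) = sf σ ((ofMoves _).1 (2 * r))
  rw [ofMoves_succ, mix_even, pos_A, ← strat_eq]

theorem follows_B (σ : (listTree M).Strat) (x : ℕ → M) :
    Follows true σ (ofMoves (mix x (fun r => hd (posB (sf σ) ((List.range (r + 1)).map x))))) := by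
  intro n hn
  obtain ⟨r, rfl⟩ : ∃ r, n = 2 * r + 1 := by
    refine ⟨n / 2, ?_⟩
    have := Nat.mod_two_of_bodd n
    rw [hn] at this
    simp at this
    omega
  show ((ofMoves _).1 (2 * r + 1 + 1) : List M) = sf σ ((ofMoves _).1 (2 * r + 1))
  rw [ofMoves_succ, ofMoves_succ, mix_even, mix_odd, pos_B, posB_succ, ← strat_eq]

end BorelAux

open BorelAux in
/-- Borel determinacy for games with countably many moves. -/
theorem borel_det {M : Type} [Nonempty M] [Countable M] [MeasurableSpace M]
    [DiscreteMeasurableSpace M] (W : Set ((ℕ → M) × (ℕ → M))) (hW : MeasurableSet W) :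
    (∃ A : List M → M, ∀ y : ℕ → M, ((fun r => A ((List.range r).map y)), y) ∈ W) ∨
    (∃ B : List M → M, ∀ x : ℕ → M, (x, fun r => B ((List.range (r + 1)).map x)) ∉ W) := by
  have hm : Measurable fun a : ℕ → M => ((fun n => a (2 * n)), fun n => a (2 * n + 1)) :=
    (measurable_pi_lambda _ fun n => measurable_pi_apply (2 * n)).prodMk
      (measurable_pi_lambda _ fun n => measurable_pi_apply (2 * n + 1))
  have hU := uu_borel _ (hm hW)
  rcases uu_det hU with ⟨σ, hσ⟩ | ⟨σ, hσ⟩
  · left
    refine ⟨fun l => hd (sf σ (posA (sf σ) l)), fun y => ?_⟩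
    have h := hσ _ (follows_A σ y)
    simp only [Set.mem_ofPred_eq, Set.mem_preimage, moves_ofMoves, mix_even, mix_odd] at h
    exact h
  · right
    refine ⟨fun l => hd (posB (sf σ) l), fun x h' => ?_⟩
    have h := hσ _ (follows_B σ x)
    simp only [Set.mem_ofPred_eq, Set.mem_preimage, moves_ofMoves, mix_even, mix_odd] at h
    exact h h'

end Pool.Agent.Helper85.Det
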