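import Pool.Agent.Helper85.BFC.Det.Force

/-!
# Determinacy of games decided at finite stages
-/

set_option autoImplicit false

namespace Pool.Agent.Helper85.Det

open GT

/-- determinacy of clopen games -/
theorem clopen_det {T : GT} (X : Set T.Play) (hX : Dec X) :
    (∃ σ : T.Strat, ∀ x, Follows false σ x → x ∈ X) ∨
    (∃ σ : T.Strat, ∀ x, Follows true σ x → x ∉ X) := by
  classical
  let A : Set T.V := {t | ∀ x : T.Play, x.1 (T.lev t) = t → x ∈ X}
  have hA : ∀ t u, T.IsChild t u → t ∈ A → u ∈ A := by
    intro t u htu ht x hx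
    refine ht x ?_
    have h1 := x.2.2 (T.lev t)
    rw [← htu.2, hx, htu.1] at h1
    exact h1.symm
  by_cases hroot : T.root ∈ Force false Set.univ A
  · left
    obtain ⟨σ, hσ⟩ := hroot
    refine ⟨σ, fun x hx => ?_⟩
    have h0 : x.1 (T.lev T.root) = T.root := by
      rw [T.lev_root]; exact T.root_uniq _ (x.2.1 0)
    obtain ⟨n, _, hn, _⟩ := hσ x h0 (fun n _ hb _ => hx n hb)
    exact hn x (by rw [x.2.1 n])
  · right
    -- a child outside `Force` at every node outside `Force`
    have hex : ∀ t : T.V, ∃ u, T.IsChild t u ∧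
        (Nat.bodd (T.lev t) = true → t ∉ Force false Set.univ A → u ∉ Force false Set.univ A) := by
      intro t
      by_cases h : Nat.bodd (T.lev t) = true ∧ t ∉ Force false Set.univ A
      · by_contra hcon
        push Not at hcon
        refine h.2 (force_opp hA (Set.mem_univ t) (by rw [h.1]; simp) fun u hu => ?_)
        exact (hcon u hu).2.2
      · exact ⟨(someStrat T).1 t, (someStrat T).2 t, fun h1 h2 => absurd ⟨h1, h2⟩ h⟩
    choose τ hτ using hex
    refine ⟨⟨τ, fun t => (hτ t).1⟩, fun x hx hxX => ?_⟩
    have hout : ∀ n, x.1 n ∉ Force false Set.univ A := by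
      intro n
      induction n with
      | zero =>
        have h0 : x.1 0 = T.root := T.root_uniq _ (x.2.1 0)
        rw [h0]; exact hroot
      | succ n ih =>
        rcases Bool.eq_false_or_eq_true (Nat.bodd n) with hb | hb
        · have h1 := hx n hb
          rw [h1]
          exact (hτ (x.1 n)).2 (by rw [x.2.1 n]; exact hb) ih
        · intro hcon
          exact ih (force_own hA (Set.mem_univ _) (by rw [x.2.1 n]; exact hb) (play_child x n) hcon)
    obtain ⟨n, hn⟩ := hX x
    refine hout n (force_of_mem (Set.mem_univ _) fun y hy => (hn y ?_).2 hxX)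
    rw [x.2.1 n] at hy
    exact hy

end Pool.Agent.Helper85.Det
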