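import Pool.Agent.Helper85.BFC.Det.Defs

/-!
# Coverings: identity, composition, monotonicity
-/

set_option autoImplicit false

namespace Pool.Agent.Helper85.Det

open Pool.Agent.Helper85.Det.GT

theorem isCov_id (T : GT) (m : ℕ) : (TMap.id T).IsCov m where
  inj := fun _ _ _ h => h
  surj := fun t _ => ⟨t, rfl⟩
  strat := fun P => ⟨fun σ => σ, {
    loc := fun σ τ n h => h
    low := fun σ s _ _ => rfl
    lift := fun σ x hx => ⟨x, hx, play_ext fun n => rfl⟩ }⟩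

theorem isCov_comp {T'' T' T : GT} {π : TMap T' T} {ρ : TMap T'' T'} {m : ℕ}
    (hπ : π.IsCov m) (hρ : ρ.IsCov m) : (π.comp ρ).IsCov m where
  inj := fun s t hs h => by
    have h1 : ρ.f s = ρ.f t := hπ.inj _ _ (by rw [ρ.lev_f]; exact hs) h
    exact hρ.inj s t hs h1
  surj := fun t ht => by
    obtain ⟨s, hs⟩ := hπ.surj t ht
    obtain ⟨r, hr⟩ := hρ.surj s (by rw [← π.lev_f, hs]; exact ht)
    exact ⟨r, by show π.f (ρ.f r) = t; rw [hr, hs]⟩
  strat := fun P => by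
    obtain ⟨φ, hφ⟩ := hπ.strat P
    obtain ⟨ψ, hψ⟩ := hρ.strat P
    refine ⟨fun σ => φ (ψ σ), ?_, ?_, ?_⟩
    · intro σ τ n h
      exact hφ.loc (ψ σ) (ψ τ) n (hψ.loc σ τ n h)
    · intro σ s hs hP
      show (φ (ψ σ)).1 (π.f (ρ.f s)) = π.f (ρ.f (σ.1 s))
      rw [hφ.low (ψ σ) (ρ.f s) (by rw [ρ.lev_f]; exact hs) (by rw [ρ.lev_f]; exact hP),
        hψ.low σ s hs hP]
    · intro σ x hx
      obtain ⟨y, hy, hyx⟩ := hφ.lift (ψ σ) x hx
      obtain ⟨z, hz, hzy⟩ := hψ.lift σ y hy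
      refine ⟨z, hz, ?_⟩
      have h1 : (π.comp ρ).play z = π.play (ρ.play z) := play_ext fun n => rfl
      rw [h1, hzy, hyx]

theorem isCov_mono {T' T : GT} {π : TMap T' T} {m m' : ℕ} (h : m' ≤ m) (hπ : π.IsCov m) :
    π.IsCov m' where
  inj := fun s t hs => hπ.inj s t (hs.trans h)
  surj := fun t ht => hπ.surj t (ht.trans h)
  strat := fun P => by
    obtain ⟨φ, hφ⟩ := hπ.strat P
    exact ⟨φ, hφ.loc, fun σ s hs => hφ.low σ s (lt_of_lt_of_le hs h), hφ.lift⟩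

end Pool.Agent.Helper85.Det
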