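import Mathlib

/-!
# Graded trees, plays, strategies and coverings

Basic language for the Lean proof of Borel determinacy (Martin's unravelling).
-/

set_option autoImplicit false

namespace Pool.Agent.Helper85.Det

/-- A graded, rooted, pruned tree. -/
structure GT where
  /-- the nodes -/
  V : Type
  /-- the level of a node -/
  lev : V → ℕ
  /-- the parent of a node (the root is its own parent) -/
  par : V → V
  /-- the root -/
  root : V
  lev_root : lev root = 0
  root_uniq : ∀ t, lev t = 0 → t = root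
  lev_par : ∀ t, lev (par t) = lev t - 1
  pruned : ∀ t, ∃ u, par u = t ∧ lev u = lev t + 1

namespace GT

variable (T : GT)

/-- `u` is a child of `t`. -/
def IsChild (t u : T.V) : Prop := T.par u = t ∧ T.lev u = T.lev t + 1

/-- The ancestor of `t` at level `n` (equal to `t` if `T.lev t ≤ n`). -/
def anc (n : ℕ) (t : T.V) : T.V := T.par^[T.lev t - n] t

/-- Infinite branches of the tree. -/
def Play : Type := {x : ℕ → T.V // (∀ n, T.lev (x n) = n) ∧ ∀ n, T.par (x (n + 1)) = x n}

/-- Total choices of a child (only the values at the nodes of one player matter). -/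
def Strat : Type := {σ : T.V → T.V // ∀ t, T.IsChild t (σ t)}

variable {T}

/-- The play `x` follows the strategy `σ` of the player `P` (`P = false` moves at even levels). -/
def Follows (P : Bool) (σ : T.Strat) (x : T.Play) : Prop :=
  ∀ n, Nat.bodd n = P → x.1 (n + 1) = σ.1 (x.1 n)

/-- Membership in `X` is decided at a finite stage of every play. -/
def Dec (X : Set T.Play) : Prop := ∀ x : T.Play, ∃ n, ∀ y : T.Play, y.1 n = x.1 n → (y ∈ X ↔ x ∈ X)

/-- From `t` the player `P` can force to reach `A`, all nodes until then being in `S`. -/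
def Force (P : Bool) (S A : Set T.V) : Set T.V :=
  {t | ∃ σ : T.Strat, ∀ x : T.Play, x.1 (T.lev t) = t →
    (∀ n, T.lev t ≤ n → Nat.bodd n = P → x.1 n ∉ A → x.1 (n + 1) = σ.1 (x.1 n)) →
    ∃ n, T.lev t ≤ n ∧ x.1 n ∈ A ∧ ∀ j, T.lev t ≤ j → j ≤ n → x.1 j ∈ S}

/-- `S` is a quasi-strategy of the player `P` from the node `t0`, inside the set of nodes `S0`. -/
structure QS (P : Bool) (S0 : Set T.V) (t0 : T.V) (S : Set T.V) : Prop where
  start : t0 ∈ S
  sub : S ⊆ S0
  above : ∀ u ∈ S, T.lev t0 ≤ T.lev u ∧ T.anc (T.lev t0) u = t0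
  down : ∀ u ∈ S, T.lev t0 < T.lev u → T.par u ∈ S
  own : ∀ u ∈ S, Nat.bodd (T.lev u) = P → ∃ v ∈ S, T.IsChild u v
  opp : ∀ u ∈ S, Nat.bodd (T.lev u) ≠ P → ∀ v ∈ S0, T.IsChild u v → v ∈ S

end GT

/-- Maps of graded trees. -/
structure TMap (T' T : GT) where
  /-- the map on nodes -/
  f : T'.V → T.V
  lev_f : ∀ t, T.lev (f t) = T'.lev t
  par_f : ∀ t, f (T'.par t) = T.par (f t)

namespace TMap

/-- The induced map on plays. -/
def play {T' T : GT} (π : TMap T' T) (x : T'.Play) : T.Play :=
  ⟨fun n => π.f (x.1 n), fun n => by rw [π.lev_f, x.2.1], fun n => by rw [← π.par_f, x.2.2]⟩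

/-- identity -/
def id (T : GT) : TMap T T := ⟨fun t => t, fun _ => rfl, fun _ => rfl⟩

/-- composition -/
def comp {T'' T' T : GT} (π : TMap T' T) (ρ : TMap T'' T') : TMap T'' T :=
  ⟨fun t => π.f (ρ.f t), fun t => by rw [π.lev_f, ρ.lev_f], fun t => by rw [ρ.par_f, π.par_f]⟩

/-- `φ` maps strategies of the player `P` in `T'` to strategies of `P` in `T`, as needed for an `m`-covering. -/
structure Good {T' T : GT} (π : TMap T' T) (m : ℕ) (P : Bool) (φ : T'.Strat → T.Strat) : Prop where
  loc : ∀ (σ τ : T'.Strat) (n : ℕ),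
    (∀ t, T'.lev t < n → Nat.bodd (T'.lev t) = P → σ.1 t = τ.1 t) →
    ∀ t, T.lev t < n → Nat.bodd (T.lev t) = P → (φ σ).1 t = (φ τ).1 t
  low : ∀ (σ : T'.Strat) (s : T'.V), T'.lev s < m → Nat.bodd (T'.lev s) = P →
    (φ σ).1 (π.f s) = π.f (σ.1 s)
  lift : ∀ (σ : T'.Strat) (x : T.Play), GT.Follows P (φ σ) x →
    ∃ y : T'.Play, GT.Follows P σ y ∧ π.play y = x

/-- `π` is an `m`-covering. -/
structure IsCov {T' T : GT} (π : TMap T' T) (m : ℕ) : Prop where
  inj : ∀ s t, T'.lev s ≤ m → π.f s = π.f t → s = t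
  surj : ∀ t, T.lev t ≤ m → ∃ s, π.f s = t
  strat : ∀ P, ∃ φ : T'.Strat → T.Strat, π.Good m P φ

end TMap

namespace GT

variable {T : GT}

theorem par_root : T.par T.root = T.root :=
  T.root_uniq _ (by rw [T.lev_par, T.lev_root])

theorem lev_eq_of_par {t u : T.V} (h : T.par u = t) (h' : T.lev u ≠ 0) : T.IsChild t u :=
  ⟨h, by rw [← h, T.lev_par]; omega⟩

theorem anc_self {n : ℕ} {t : T.V} (h : T.lev t ≤ n) : T.anc n t = t := by
  rw [anc, Nat.sub_eq_zero_of_le h]; rfl

theorem anc_par {n : ℕ} {t : T.V} (h : n < T.lev t) : T.anc n (T.par t) = T.anc n t := by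
  unfold anc
  rw [T.lev_par]
  obtain ⟨k, hk⟩ : ∃ k, T.lev t - n = k + 1 := ⟨T.lev t - n - 1, by omega⟩
  have h2 : T.lev t - 1 - n = k := by omega
  rw [hk, h2, Function.iterate_succ_apply]

theorem anc_child {n : ℕ} {t u : T.V} (h : T.IsChild t u) (hn : n ≤ T.lev t) : T.anc n u = T.anc n t := by
  rw [← h.1, anc_par]
  have := h.2
  omega

theorem lev_iter (k : ℕ) (t : T.V) : T.lev (T.par^[k] t) = T.lev t - k := by
  induction k generalizing t with
  | zero => rfl
  | succ k ih => rw [Function.iterate_succ_apply, ih, T.lev_par]; omega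

theorem lev_anc {n : ℕ} {t : T.V} (h : n ≤ T.lev t) : T.lev (T.anc n t) = n := by
  unfold anc
  rw [lev_iter]; omega

theorem lev_anc' (n : ℕ) (t : T.V) : T.lev (T.anc n t) = min n (T.lev t) := by
  unfold anc
  rw [lev_iter]; omega

theorem anc_anc {n k : ℕ} (h : n ≤ k) (t : T.V) : T.anc n (T.anc k t) = T.anc n t := by
  unfold anc
  rw [lev_iter, ← Function.iterate_add_apply]
  congr 2
  omega

theorem par_anc {n : ℕ} {t : T.V} (h : n < T.lev t) : T.par (T.anc (n + 1) t) = T.anc n t := by
  unfold anc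
  rw [← Function.iterate_succ_apply' (f := T.par)]
  congr 2
  omega

theorem anc_zero (t : T.V) : T.anc 0 t = T.root :=
  T.root_uniq _ (lev_anc (Nat.zero_le _))

theorem isChild_anc {n : ℕ} {t : T.V} (h : n < T.lev t) : T.IsChild (T.anc n t) (T.anc (n + 1) t) :=
  ⟨par_anc h, by rw [lev_anc h, lev_anc h.le]⟩

theorem play_child (x : T.Play) (n : ℕ) : T.IsChild (x.1 n) (x.1 (n + 1)) :=
  ⟨x.2.2 n, by rw [x.2.1, x.2.1]⟩

theorem play_anc (x : T.Play) {n k : ℕ} (h : n ≤ k) : T.anc n (x.1 k) = x.1 n := by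
  induction k, h using Nat.le_induction with
  | base => exact anc_self (x.2.1 n).le
  | succ k hk ih => rw [anc_child (play_child x k) (by rw [x.2.1]; exact hk), ih]

theorem play_ext {x y : T.Play} (h : ∀ n, x.1 n = y.1 n) : x = y :=
  Subtype.ext (funext h)

theorem play_eq_of_le {x y : T.Play} {n k : ℕ} (h : n ≤ k) (e : x.1 k = y.1 k) : x.1 n = y.1 n := by
  rw [← play_anc x h, ← play_anc y h, e]

/-- a child of each node -/
noncomputable def someStrat (T : GT) : T.Strat :=
  ⟨fun t => (T.pruned t).choose, fun t => (T.pruned t).choose_spec⟩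

/-- The play through `t` that follows `σ` (at all nodes) from `t` on. -/
def run (σ : T.Strat) (t : T.V) : T.Play := by
  refine ⟨fun n => if n ≤ T.lev t then T.anc n t else σ.1^[n - T.lev t] t, ?_⟩
  have key : ∀ k, T.lev (σ.1^[k] t) = T.lev t + k := by
    intro k
    induction k with
    | zero => rfl
    | succ k ih => rw [Function.iterate_succ_apply', (σ.2 _).2, ih]; rfl
  constructor
  · intro n
    dsimp only
    split_ifs with h
    · exact lev_anc h
    · rw [key]; omega
  · intro n
    dsimp only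
    split_ifs with h h' h'
    · exact par_anc h
    · omega
    · have hn : n = T.lev t := by omega
      subst hn
      have : T.lev t + 1 - T.lev t = 1 := by omega
      rw [this, anc_self le_rfl]
      exact (σ.2 _).1
    · have : n + 1 - T.lev t = (n - T.lev t) + 1 := by omega
      rw [this, Function.iterate_succ_apply']
      exact (σ.2 _).1

theorem run_le (σ : T.Strat) (t : T.V) {n : ℕ} (h : n ≤ T.lev t) : (run σ t).1 n = T.anc n t :=
  if_pos h

theorem run_self (σ : T.Strat) (t : T.V) : (run σ t).1 (T.lev t) = t := by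
  rw [run_le σ t le_rfl, anc_self le_rfl]

theorem run_succ (σ : T.Strat) (t : T.V) {n : ℕ} (h : T.lev t ≤ n) :
    (run σ t).1 (n + 1) = σ.1 ((run σ t).1 n) := by
  have h1 : (run σ t).1 (n + 1) = σ.1^[n + 1 - T.lev t] t := if_neg (by omega)
  have h2 : (run σ t).1 n = σ.1^[n - T.lev t] t := by
    rcases Nat.lt_or_ge (T.lev t) n with h3 | h3
    · exact if_neg (by omega)
    · have : n = T.lev t := le_antisymm h3 h
      subst this
      rw [run_self]; simp
  rw [h1, h2, ← Function.iterate_succ_apply' (f := σ.1)]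
  congr 1
  omega

end GT

namespace TMap

theorem f_anc {T' T : GT} (π : TMap T' T) (n : ℕ) (t : T'.V) : π.f (T'.anc n t) = T.anc n (π.f t) := by
  unfold GT.anc
  rw [π.lev_f]
  generalize T'.lev t - n = k
  induction k generalizing t with
  | zero => rfl
  | succ k ih => rw [Function.iterate_succ_apply, Function.iterate_succ_apply, ih, π.par_f]

theorem f_child {T' T : GT} (π : TMap T' T) {s t : T'.V} (h : T'.IsChild s t) :
    T.IsChild (π.f s) (π.f t) :=
  ⟨by rw [← π.par_f, h.1], by rw [π.lev_f, π.lev_f, h.2]⟩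

end TMap

end Pool.Agent.Helper85.Det
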