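import Pool.Agent.Helper85.BFC.Det.ListTree

/-!
# Reachability games
-/

set_option autoImplicit false

namespace Pool.Agent.Helper85.Det

open GT

section A1
variable {T : GT} {P : Bool} {S A : Set T.V}

theorem force_of_mem {t : T.V} (hS : t ∈ S) (hA : t ∈ A) : t ∈ Force P S A := by
  refine ⟨someStrat T, fun x hx _ => ⟨T.lev t, le_rfl, by rw [hx]; exact hA, ?_⟩⟩
  intro j h1 h2
  obtain rfl : j = T.lev t := le_antisymm h2 h1
  rw [hx]
  exact hS

theorem mem_of_force {t : T.V} (h : t ∈ Force P S A) : t ∈ S := by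
  obtain ⟨σ, hσ⟩ := h
  obtain ⟨n, hn, _, hj⟩ := hσ (run σ t) (run_self σ t) (fun n hn _ _ => run_succ σ t hn)
  have := hj (T.lev t) le_rfl hn
  rwa [run_self] at this

/-- at a node of `P`, one winning child is enough -/
theorem force_own (hA : ∀ t u, T.IsChild t u → t ∈ A → u ∈ A) {t u : T.V} (hS : t ∈ S)
    (hP : Nat.bodd (T.lev t) = P) (htu : T.IsChild t u) (hu : u ∈ Force P S A) :
    t ∈ Force P S A := by
  classical
  by_cases htA : t ∈ A
  · exact force_of_mem hS htA
  obtain ⟨σ, hσ⟩ := hu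
  refine ⟨⟨fun w => if w = t then u else σ.1 w, ?_⟩, ?_⟩
  · intro w
    by_cases h : w = t
    · simp only [h, if_true]
      exact htu
    · simp only [h, if_false]
      exact σ.2 w
  · intro x hx hfol
    have h1 : x.1 (T.lev t + 1) = u := by
      have := hfol (T.lev t) le_rfl hP (by rw [hx]; exact htA)
      simp only [hx, if_true] at this
      exact this
    have h2 : T.lev u = T.lev t + 1 := htu.2
    obtain ⟨n, hn, hnA, hj⟩ := hσ x (by rw [h2]; exact h1) (by
      intro n hn hnP hnA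
      have h3 := hfol n (by omega) hnP hnA
      have h4 : x.1 n ≠ t := by
        intro h5
        have h6 := x.2.1 n
        rw [h5] at h6
        omega
      simp only [h4, if_false] at h3
      exact h3)
    refine ⟨n, by omega, hnA, ?_⟩
    intro j hj1 hj2
    rcases Nat.lt_or_ge (T.lev t) j with h5 | h5
    · exact hj j (by omega) hj2
    · obtain rfl : j = T.lev t := le_antisymm h5 hj1
      rw [hx]
      exact hS

/-- at a node of the opponent, all children winning is enough -/
theorem force_opp (hA : ∀ t u, T.IsChild t u → t ∈ A → u ∈ A) {t : T.V} (hS : t ∈ S)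
    (hP : Nat.bodd (T.lev t) ≠ P) (h : ∀ u, T.IsChild t u → u ∈ Force P S A) :
    t ∈ Force P S A := by
  classical
  have h0 : ∀ u : T.V, ∃ σ : T.Strat, T.IsChild t u → ∀ x : T.Play, x.1 (T.lev u) = u →
    (∀ n, T.lev u ≤ n → Nat.bodd n = P → x.1 n ∉ A → x.1 (n + 1) = σ.1 (x.1 n)) →
    ∃ n, T.lev u ≤ n ∧ x.1 n ∈ A ∧ ∀ j, T.lev u ≤ j → j ≤ n → x.1 j ∈ S := by
    intro u
    by_cases hu : T.IsChild t u
    · obtain ⟨σ, hσ⟩ := h u hu
      exact ⟨σ, fun _ => hσ⟩
    · exact ⟨someStrat T, fun h => absurd h hu⟩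
  choose σ hσ using h0
  refine ⟨⟨fun w => (σ (T.anc (T.lev t + 1) w)).1 w, fun w => (σ _).2 w⟩, ?_⟩
  intro x hx hfol
  have h1 : T.IsChild t (x.1 (T.lev t + 1)) := by
    have := play_child x (T.lev t)
    rwa [hx] at this
  have h2 : T.lev (x.1 (T.lev t + 1)) = T.lev t + 1 := x.2.1 _
  obtain ⟨n, hn, hnA, hj⟩ := hσ _ h1 x (by rw [h2]) (by
    intro n hn hnP hnA
    rw [h2] at hn
    have h3 := hfol n (by omega) hnP hnA
    simp only [play_anc x hn] at h3
    exact h3)
  rw [h2] at hn hj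
  refine ⟨n, by omega, hnA, ?_⟩
  intro j hj1 hj2
  rcases Nat.lt_or_ge (T.lev t) j with h5 | h5
  · exact hj j (by omega) hj2
  · obtain rfl : j = T.lev t := le_antisymm h5 hj1
    rw [hx]
    exact hS

end A1

end Pool.Agent.Helper85.Det
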