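import Pool.Agent.Helper85.BFC.Det.ListTree

/-!
# Strategies of an inverse limit of coverings
-/

set_option autoImplicit false

namespace Pool.Agent.Helper85.Det

open GT

section LimStrat

variable {T : ℕ → GT} {m : ℕ} {L : GT} (ρ : ∀ i, TMap L (T i))
  (hsurj : ∀ i t, (T i).lev t ≤ m + i → ∃ s, (ρ i).f s = t)

include hsurj in
open Classical in
/-- transfer of a strategy of `L` to `T j` on levels `< m + j`, arbitrary above -/
theorem exists_transfer (hinj : ∀ i s t, L.lev s ≤ m + i → (ρ i).f s = (ρ i).f t → s = t) (j : ℕ) :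
    ∃ τ : L.Strat → (T j).Strat,
      (∀ (σ : L.Strat) (s : L.V), L.lev s < m + j → (τ σ).1 ((ρ j).f s) = (ρ j).f (σ.1 s)) ∧
      (∀ (σ σ' : L.Strat) (t : (T j).V), m + j ≤ (T j).lev t → (τ σ).1 t = (τ σ').1 t) := by
  refine ⟨fun σ => ⟨fun t => if h : (T j).lev t < m + j then
      (ρ j).f (σ.1 (hsurj j t h.le).choose) else (someStrat (T j)).1 t, ?_⟩, ?_, ?_⟩
  · intro t
    dsimp only
    split_ifs with h
    · have hs := (hsurj j t h.le).choose_spec
      have := (ρ j).f_child (σ.2 (hsurj j t h.le).choose)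
      rw [hs] at this
      exact this
    · exact (someStrat (T j)).2 t
  · intro σ s hs
    have h : (T j).lev ((ρ j).f s) < m + j := by rw [(ρ j).lev_f]; exact hs
    have e : (hsurj j ((ρ j).f s) h.le).choose = s :=
      (hinj j s _ hs.le (hsurj j ((ρ j).f s) h.le).choose_spec.symm).symm
    show (if h : (T j).lev ((ρ j).f s) < m + j then
      (ρ j).f (σ.1 (hsurj j ((ρ j).f s) h.le).choose) else (someStrat (T j)).1 ((ρ j).f s)) = _
    rw [dif_pos h, e]
  · intro σ σ' t ht
    show (if h : (T j).lev t < m + j then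
      (ρ j).f (σ.1 (hsurj j t h.le).choose) else (someStrat (T j)).1 t) =
      (if h : (T j).lev t < m + j then
      (ρ j).f (σ'.1 (hsurj j t h.le).choose) else (someStrat (T j)).1 t)
    rw [dif_neg (not_lt.2 ht), dif_neg (not_lt.2 ht)]

end LimStrat

/-- agreement of two strategies at the nodes of `P` of level `< n` -/
def AgreeP {T : GT} (P : Bool) (n : ℕ) (σ τ : T.Strat) : Prop :=
  ∀ t, T.lev t < n → Nat.bodd (T.lev t) = P → σ.1 t = τ.1 t

/-- iterated transfer -/
def iterB {T : ℕ → GT} (L : GT) (ψ : ∀ j, (T (j + 1)).Strat → (T j).Strat)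
    (τ : ∀ j, L.Strat → (T j).Strat) (σ : L.Strat) : ℕ → ∀ j, (T j).Strat
  | 0, j => τ j σ
  | k + 1, j => ψ j (iterB L ψ τ σ k (j + 1))

theorem limit_strat (T : ℕ → GT) (π : ∀ i, TMap (T (i + 1)) (T i)) (m : ℕ)
    (hπ : ∀ i, (π i).IsCov (m + i)) (L : GT) (ρ : ∀ i, TMap L (T i))
    (hc : ∀ i t, (π i).f ((ρ (i + 1)).f t) = (ρ i).f t)
    (hinj : ∀ i s t, L.lev s ≤ m + i → (ρ i).f s = (ρ i).f t → s = t)
    (hsurj : ∀ i t, (T i).lev t ≤ m + i → ∃ s, (ρ i).f s = t) (i : ℕ) (P : Bool) :
    ∃ φ : L.Strat → (T i).Strat, (ρ i).Good (m + i) P φ := by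
  choose ψ hψ using fun j => (hπ j).strat P
  choose τ hτ1 hτ2 using fun j => exists_transfer (T := T) (m := m) (L := L) ρ hsurj hinj j
  set B : L.Strat → ℕ → ∀ j, (T j).Strat := fun σ => iterB L ψ τ σ with hB
  have B0 : ∀ σ j, B σ 0 j = τ j σ := fun _ _ => rfl
  have BS : ∀ σ k j, B σ (k + 1) j = ψ j (B σ k (j + 1)) := fun _ _ _ => rfl
  -- (b) consecutive ones agree
  have hb : ∀ σ k j, AgreeP P (m + j + k) (B σ (k + 1) j) (B σ k j) := by
    intro σ k
    induction k with
    | zero =>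
      intro j t ht hP
      have ht' : (T j).lev t < m + j := by simpa using ht
      obtain ⟨s, rfl⟩ := hsurj j t ht'.le
      have hs : L.lev s < m + j := by rw [← (ρ j).lev_f]; exact ht'
      rw [BS, B0, B0, hτ1 j σ s hs, ← hc j s]
      have hP' : Nat.bodd ((T (j + 1)).lev ((ρ (j + 1)).f s)) = P := by
        rw [(ρ (j + 1)).lev_f, ← (ρ j).lev_f]; exact hP
      have hl : (T (j + 1)).lev ((ρ (j + 1)).f s) < m + j := by
        rw [(ρ (j + 1)).lev_f]; exact hs
      rw [(hψ j).low (τ (j + 1) σ) ((ρ (j + 1)).f s) hl hP',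
        hτ1 (j + 1) σ s (by omega), hc]
    | succ k ih =>
      intro j t ht hP
      rw [BS, BS]
      refine (hψ j).loc _ _ (m + (j + 1) + k) (ih (j + 1)) t (by omega) hP
  -- (b') all of them agree
  have hb' : ∀ σ k l j, AgreeP P (m + j + k) (B σ (k + l) j) (B σ k j) := by
    intro σ k l j
    induction l with
    | zero => intro t _ _; rfl
    | succ l ih =>
      intro t ht hP
      have := hb σ (k + l) j t (by omega) hP
      rw [← ih t ht hP, ← this]
      rfl
  -- definition of the limit strategies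
  set φ : ∀ j, L.Strat → (T j).Strat := fun j σ =>
    ⟨fun t => (B σ ((T j).lev t + 1) j).1 t, fun t => (B σ ((T j).lev t + 1) j).2 t⟩ with hφ
  have hφv : ∀ j σ t, (φ j σ).1 t = (B σ ((T j).lev t + 1) j).1 t := fun _ _ _ => rfl
  -- (c)
  have hcc : ∀ σ j k, AgreeP P (m + j + k) (φ j σ) (B σ k j) := by
    intro σ j k t ht hP
    rw [hφv]
    rcases Nat.le_total ((T j).lev t + 1) k with h | h
    · obtain ⟨l, rfl⟩ := Nat.exists_eq_add_of_le h
      exact (hb' σ ((T j).lev t + 1) l j t (by omega) hP).symm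
    · obtain ⟨l, hl⟩ := Nat.exists_eq_add_of_le h
      rw [hl]
      exact hb' σ k l j t ht hP
  -- (d)
  have hd : ∀ σ j t, Nat.bodd ((T j).lev t) = P → (φ j σ).1 t = (ψ j (φ (j + 1) σ)).1 t := by
    intro σ j t hP
    have h1 : (ψ j (φ (j + 1) σ)).1 t = (ψ j (B σ ((T j).lev t + 1) (j + 1))).1 t := by
      refine (hψ j).loc _ _ ((T j).lev t + 1) ?_ t (by omega) hP
      intro u hu hPu
      exact hcc σ (j + 1) ((T j).lev t + 1) u (by omega) hPu
    rw [h1, ← BS]
    exact hcc σ j ((T j).lev t + 1 + 1) t (by omega) hP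
  -- (f)
  have hf : ∀ σ j (s : L.V), L.lev s < m + j → Nat.bodd (L.lev s) = P →
      (φ j σ).1 ((ρ j).f s) = (ρ j).f (σ.1 s) := by
    intro σ j s hs hP
    rw [hcc σ j 0 ((ρ j).f s) (by rw [(ρ j).lev_f]; omega) (by rw [(ρ j).lev_f]; exact hP), B0]
    exact hτ1 j σ s hs
  refine ⟨φ i, ?_, ?_, ?_⟩
  · -- loc
    intro σ σ' n hσ
    have key : ∀ k j, AgreeP P n (B σ k j) (B σ' k j) := by
      intro k
      induction k with
      | zero =>
        intro j t ht hP
        rw [B0, B0]
        rcases Nat.lt_or_ge ((T j).lev t) (m + j) with h | h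
        · obtain ⟨s, rfl⟩ := hsurj j t h.le
          have hs : L.lev s < m + j := by rw [← (ρ j).lev_f]; exact h
          have hs' : L.lev s < n := by rw [← (ρ j).lev_f]; exact ht
          have hPs : Nat.bodd (L.lev s) = P := by rw [← (ρ j).lev_f]; exact hP
          rw [hτ1 j σ s hs, hτ1 j σ' s hs, hσ s hs' hPs]
        · exact hτ2 j σ σ' t h
      | succ k ih =>
        intro j t ht hP
        rw [BS, BS]
        exact (hψ j).loc _ _ n (ih (j + 1)) t ht hP
    intro t ht hP
    rw [hφv, hφv]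
    exact key _ i t ht hP
  · -- low
    intro σ s hs hP
    exact hf σ i s hs hP
  · -- lift
    intro σ x hx
    -- follow the strategy pulled back
    have step : ∀ j (z : {z : (T j).Play // Follows P (φ j σ) z}),
        ∃ w : {w : (T (j + 1)).Play // Follows P (φ (j + 1) σ) w}, (π j).play w.1 = z.1 := by
      intro j z
      have hz : Follows P (ψ j (φ (j + 1) σ)) z.1 := by
        intro n hn
        rw [z.2 n hn]
        exact hd σ j _ (by rw [z.1.2.1]; exact hn)
      obtain ⟨w, hw, hw'⟩ := (hψ j).lift (φ (j + 1) σ) z.1 hz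
      exact ⟨⟨w, hw⟩, hw'⟩
    choose nxt hnxt using step
    let X : ∀ k, {z : (T (i + k)).Play // Follows P (φ (i + k) σ) z} := fun k =>
      Nat.rec (motive := fun k => {z : (T (i + k)).Play // Follows P (φ (i + k) σ) z})
        ⟨x, hx⟩ (fun k z => nxt (i + k) z) k
    have X0 : (X 0).1 = x := rfl
    have XS : ∀ k, (π (i + k)).play (X (k + 1)).1 = (X k).1 := fun k => hnxt (i + k) (X k)
    have XSv : ∀ k n, (π (i + k)).f ((X (k + 1)).1.1 n) = (X k).1.1 n := by
      intro k n
      rw [← XS k]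
      rfl
    have hex : ∀ n, ∃ s, (ρ (i + n)).f s = (X n).1.1 n := fun n =>
      hsurj (i + n) _ (by rw [(X n).1.2.1]; omega)
    choose y hy using hex
    have hylev : ∀ n, L.lev (y n) = n := by
      intro n
      rw [← (ρ (i + n)).lev_f, hy, (X n).1.2.1]
    have hypar : ∀ n, L.par (y (n + 1)) = y n := by
      intro n
      refine (hinj (i + n) (y n) (L.par (y (n + 1))) (by rw [hylev]; omega) ?_).symm
      rw [(ρ (i + n)).par_f, hy n]
      have h1 : (ρ (i + n)).f (y (n + 1)) = (X n).1.1 (n + 1) := by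
        rw [← hc (i + n) (y (n + 1)), ← XSv n (n + 1)]
        exact congrArg (π (i + n)).f (hy (n + 1))
      rw [h1, (X n).1.2.2 n]
    refine ⟨⟨y, hylev, hypar⟩, ?_, ?_⟩
    · intro n hn
      show y (n + 1) = σ.1 (y n)
      have hlev : L.lev (y (n + 1)) ≤ m + (i + (n + 1)) := by rw [hylev]; omega
      refine hinj (i + (n + 1)) (y (n + 1)) (σ.1 (y n)) hlev ?_
      have h2 : (X (n + 1)).1.1 n = (ρ (i + (n + 1))).f (y n) := by
        rw [← (X (n + 1)).1.2.2 n, ← hy (n + 1), ← (ρ (i + (n + 1))).par_f, hypar]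
      rw [hy (n + 1), (X (n + 1)).2 n hn, h2]
      exact hf σ (i + (n + 1)) (y n) (by rw [hylev]; omega) (by rw [hylev]; exact hn)
    · apply play_ext
      intro n
      show (ρ i).f (y n) = x.1 n
      have key : ∀ d k, k + d = n → (ρ (i + k)).f (y n) = (X k).1.1 n := by
        intro d
        induction d with
        | zero =>
          intro k hk
          have : k = n := by omega
          subst this
          exact hy k
        | succ d ih =>
          intro k hk
          rw [← hc (i + k) (y n), ← XSv k n]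
          exact congrArg (π (i + k)).f (ih (k + 1) (by omega))
      exact key n 0 (by omega)

end Pool.Agent.Helper85.Det
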