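import Pool.Agent.Helper85.BFC.Det.ListTree

/-!
# Inverse limits of graded trees
-/

set_option autoImplicit false

namespace Pool.Agent.Helper85.Det

open GT

theorem limTree_root {T' T : GT} (π : TMap T' T) : π.f T'.root = T.root :=
  T.root_uniq _ (by rw [π.lev_f, T'.lev_root])

theorem limTree_up (T : ℕ → GT) (π : ∀ i, TMap (T (i + 1)) (T i)) (m : ℕ)
    (hsurj : ∀ i t, (T i).lev t ≤ m + i → ∃ s, (π i).f s = t) (x : (T 0).V)
    (hx : (T 0).lev x ≤ m) :
    ∃ u : ∀ i, (T i).V, (∀ i, (π i).f (u (i + 1)) = u i) ∧ u 0 = x := by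
  have step : ∀ i (y : {y : (T i).V // (T i).lev y ≤ m}),
      ∃ z : {z : (T (i + 1)).V // (T (i + 1)).lev z ≤ m}, (π i).f z.1 = y.1 := by
    intro i y
    obtain ⟨s, hs⟩ := hsurj i y.1 (le_trans y.2 (Nat.le_add_right _ _))
    refine ⟨⟨s, ?_⟩, hs⟩
    rw [← (π i).lev_f, hs]
    exact y.2
  choose g hg using step
  let u : ∀ i, {y : (T i).V // (T i).lev y ≤ m} := fun i => Nat.rec ⟨x, hx⟩ (fun j y => g j y) i
  exact ⟨fun i => (u i).1, fun i => hg i (u i), rfl⟩

theorem limTree_ext : ∀ (i0 : ℕ) (T : ℕ → GT) (π : ∀ i, TMap (T (i + 1)) (T i)) (m : ℕ)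
    (_ : ∀ i t, (T i).lev t ≤ m + i → ∃ s, (π i).f s = t) (x : (T i0).V)
    (_ : (T i0).lev x ≤ m + i0),
    ∃ u : ∀ i, (T i).V, (∀ i, (π i).f (u (i + 1)) = u i) ∧ u i0 = x := by
  intro i0
  induction i0 with
  | zero =>
    intro T π m hsurj x hx
    exact limTree_up T π m hsurj x hx
  | succ i0 ih =>
    intro T π m hsurj x hx
    obtain ⟨u, hu, hux⟩ := ih (fun i => T (i + 1)) (fun i => π (i + 1)) (m + 1)
      (fun i t h => hsurj (i + 1) t (by omega)) x (by omega)
    refine ⟨fun i => Nat.rec (motive := fun i => (T i).V) ((π 0).f (u 0)) (fun j _ => u j) i,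
      ?_, hux⟩
    intro i
    cases i with
    | zero => rfl
    | succ i => exact hu i

theorem limTree_uniq (T : ℕ → GT) (π : ∀ i, TMap (T (i + 1)) (T i)) (m : ℕ)
    (hinj : ∀ i s t, (T (i + 1)).lev s ≤ m + i → (π i).f s = (π i).f t → s = t)
    (u v : ∀ i, (T i).V) (hu : ∀ i, (π i).f (u (i + 1)) = u i)
    (hv : ∀ i, (π i).f (v (i + 1)) = v i) (i : ℕ) (hl : (T i).lev (u i) ≤ m + i)
    (h : u i = v i) : u = v := by
  have hup : ∀ k, u (i + k) = v (i + k) ∧ (T (i + k)).lev (u (i + k)) ≤ m + i := by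
    intro k
    induction k with
    | zero => exact ⟨h, hl⟩
    | succ k ih =>
      have h1 : (T (i + k + 1)).lev (u (i + k + 1)) ≤ m + i := by
        rw [← (π (i + k)).lev_f, hu]
        exact ih.2
      have h2 : u (i + k + 1) = v (i + k + 1) := by
        refine hinj (i + k) _ _ (by omega) ?_
        rw [hu, hv]
        exact ih.1
      exact ⟨h2, h1⟩
  have hdown : ∀ k, u k = v k → ∀ j, j ≤ k → u j = v j := by
    intro k
    induction k with
    | zero =>
      intro h0 j hj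
      obtain rfl : j = 0 := by omega
      exact h0
    | succ k ih =>
      intro h0 j hj
      rcases Nat.lt_or_ge j (k + 1) with h1 | h1
      · refine ih ?_ j (by omega)
        rw [← hu, ← hv, h0]
      · obtain rfl : j = k + 1 := by omega
        exact h0
  funext j
  rcases Nat.le_total i j with h1 | h1
  · obtain ⟨k, rfl⟩ := Nat.exists_eq_add_of_le h1
    exact (hup k).1
  · exact hdown i h j h1

/-- inverse limit of a sequence of maps which are bijective on larger and larger levels -/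
theorem exists_limit_tree (T : ℕ → GT) (π : ∀ i, TMap (T (i + 1)) (T i)) (m : ℕ)
    (hinj : ∀ i s t, (T (i + 1)).lev s ≤ m + i → (π i).f s = (π i).f t → s = t)
    (hsurj : ∀ i t, (T i).lev t ≤ m + i → ∃ s, (π i).f s = t) :
    ∃ (L : GT) (ρ : ∀ i, TMap L (T i)),
      (∀ i t, (π i).f ((ρ (i + 1)).f t) = (ρ i).f t) ∧
      (∀ i s t, L.lev s ≤ m + i → (ρ i).f s = (ρ i).f t → s = t) ∧
      (∀ i t, (T i).lev t ≤ m + i → ∃ s, (ρ i).f s = t) := by
  have hlev : ∀ (u : ∀ i, (T i).V), (∀ i, (π i).f (u (i + 1)) = u i) →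
      ∀ i, (T i).lev (u i) = (T 0).lev (u 0) := by
    intro u hu i
    induction i with
    | zero => rfl
    | succ i ih => rw [← ih, ← hu i, (π i).lev_f]
  let L : GT := {
    V := {u : ∀ i, (T i).V // ∀ i, (π i).f (u (i + 1)) = u i}
    lev := fun u => (T 0).lev (u.1 0)
    par := fun u => ⟨fun i => (T i).par (u.1 i), fun i => by rw [(π i).par_f, u.2]⟩
    root := ⟨fun i => (T i).root, fun i => limTree_root (π i)⟩
    lev_root := (T 0).lev_root
    root_uniq := by
      intro u hu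
      apply Subtype.ext
      funext i
      exact (T i).root_uniq _ (by rw [hlev u.1 u.2 i]; exact hu)
    lev_par := fun u => (T 0).lev_par (u.1 0)
    pruned := by
      intro u
      let i0 := (T 0).lev (u.1 0) + 1
      obtain ⟨w, hw1, hw2⟩ := (T i0).pruned (u.1 i0)
      have hl0 := hlev u.1 u.2 i0
      obtain ⟨v, hv, hvw⟩ := limTree_ext i0 T π m hsurj w (by
        rw [hw2, hl0]
        exact Nat.le_add_left _ _)
      refine ⟨⟨v, hv⟩, ?_, ?_⟩
      · apply Subtype.ext
        refine limTree_uniq T π m hinj _ _ (fun i => by rw [(π i).par_f, hv]) u.2 i0 ?_ ?_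
        · show (T i0).lev ((T i0).par (v i0)) ≤ m + i0
          rw [(T i0).lev_par, hvw, hw2, hl0]
          have : i0 = (T 0).lev (u.1 0) + 1 := rfl
          omega
        · show (T i0).par (v i0) = u.1 i0
          rw [hvw, hw1]
      · show (T 0).lev (v 0) = (T 0).lev (u.1 0) + 1
        rw [← hlev v hv i0, hvw, hw2, hl0] }
  refine ⟨L, fun i => ⟨fun u => u.1 i, fun u => hlev u.1 u.2 i, fun u => rfl⟩, ?_, ?_, ?_⟩
  · intro i u
    exact u.2 i
  · intro i s t hs hst
    apply Subtype.ext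
    exact limTree_uniq T π m hinj s.1 t.1 s.2 t.2 i (by rw [hlev s.1 s.2 i]; exact hs) hst
  · intro i t ht
    obtain ⟨u, hu, hut⟩ := limTree_ext i T π m hsurj t ht
    exact ⟨⟨u, hu⟩, hut⟩

end Pool.Agent.Helper85.Det
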