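import Pool.Agent.Helper85.BFC.Det.Defs

/-!
# The tree of finite sequences of moves
-/

set_option autoImplicit false

namespace Pool.Agent.Helper85.Det

/-- The tree of all finite sequences of elements of `M` (latest move first). -/
def listTree (M : Type) [Nonempty M] : GT where
  V := List M
  lev := List.length
  par := List.tail
  root := []
  lev_root := rfl
  root_uniq := fun t h => by simpa using h
  lev_par := fun t => by simp
  pruned := fun t => ⟨Classical.arbitrary M :: t, rfl, rfl⟩

variable {M : Type} [Nonempty M]

theorem listTree_ne (x : (listTree M).Play) (n : ℕ) : (x.1 (n + 1) : List M) ≠ [] := by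
  have h : (x.1 (n + 1) : List M).length = n + 1 := x.2.1 (n + 1)
  intro h0
  rw [h0] at h
  simp at h

/-- The `n`-th move of a play. -/
def moves (x : (listTree M).Play) (n : ℕ) : M := List.head (x.1 (n + 1)) (listTree_ne x n)

theorem play_succ (x : (listTree M).Play) (n : ℕ) :
    (x.1 (n + 1) : List M) = moves x n :: (x.1 n : List M) := by
  have h1 : List.tail (x.1 (n + 1) : List M) = x.1 n := x.2.2 n
  have h2 := List.cons_head_tail (listTree_ne x n)
  rw [h1] at h2
  exact h2.symm

/-- The play with given moves. -/
def ofMoves (a : ℕ → M) : (listTree M).Play :=
  ⟨fun n => ((List.range n).map a).reverse, fun n => by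
    show (((List.range n).map a).reverse).length = n
    simp, fun n => by
    show List.tail (((List.range (n + 1)).map a).reverse) = ((List.range n).map a).reverse
    rw [List.range_succ, List.map_append, List.reverse_append]
    simp⟩

theorem moves_ofMoves (a : ℕ → M) : moves (ofMoves a) = a := by
  funext n
  have h := play_succ (ofMoves a) n
  have h' : ((ofMoves a).1 (n + 1) : List M) = a n :: ((ofMoves a).1 n : List M) := by
    show ((List.range (n + 1)).map a).reverse = a n :: ((List.range n).map a).reverse
    rw [List.range_succ, List.map_append, List.reverse_append]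
    simp
  rw [h'] at h
  exact (List.cons.inj h).1.symm

theorem ofMoves_moves (x : (listTree M).Play) : ofMoves (moves x) = x := by
  apply GT.play_ext
  intro n
  induction n with
  | zero =>
    have h1 : ((ofMoves (moves x)).1 0 : List M) = [] := rfl
    have h2 : (x.1 0 : List M).length = 0 := x.2.1 0
    rw [h1]
    exact (List.length_eq_zero_iff.1 h2).symm
  | succ n ih =>
    rw [play_succ x n, play_succ (ofMoves (moves x)) n, moves_ofMoves]
    exact congrArg _ ih

end Pool.Agent.Helper85.Det
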