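import Pool.Agent.Helper85.BFC.Det.Unr
import Pool.Agent.Helper85.BFC.Det.Force

/-!
# Strategies of the first player through the unravelling tree
-/

set_option autoImplicit false

namespace Pool.Agent.Helper85.Det

open Pool.Agent.Helper85.Det.GT

namespace UnrI

variable {T : GT} {A : Set T.V} {K : ℕ} {hK : Nat.bodd K = false}
  {hA : ∀ t u, T.IsChild t u → t ∈ A → u ∈ A}

/-- the node of the unravelling tree over a node of low level -/
noncomputable def mk (t : T.V) (h : T.lev t ≤ K) : (unr T A K hK hA).V :=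
  ⟨(t, ∅, Sum.inr ∅), uvalid_low h⟩

theorem mk_congr {t t' : T.V} (e : t = t') (h : T.lev t ≤ K) (h' : T.lev t' ≤ K) :
    mk (hK := hK) (hA := hA) t h = mk t' h' := by
  subst e
  rfl

theorem lev_anc_le (t : T.V) : T.lev (T.anc K t) ≤ K := by
  rw [lev_anc']; exact min_le_left _ _

open Classical in
/-- projection of the answer of a strategy at raw data -/
noncomputable def gq (σ : (unr T A K hK hA).Strat) (q : UDat T) : T.V :=
  if h : UValid T A K q then (σ.1 ⟨q, h⟩).1.1 else T.someStrat.1 q.1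

theorem gq_child (σ : (unr T A K hK hA).Strat) (q : UDat T) : T.IsChild q.1 (gq σ q) := by
  classical
  unfold gq
  split_ifs with h
  · exact unr_child_T (σ.2 ⟨q, h⟩)
  · exact T.someStrat.2 q.1

theorem gq_val (σ : (unr T A K hK hA).Strat) (q : (unr T A K hK hA).V) :
    gq σ q.1 = (σ.1 q).1.1 := by
  classical
  unfold gq
  rw [dif_pos q.2]
  rfl

theorem gq_congr (σ τ : (unr T A K hK hA).Strat) (q : UDat T)
    (h : ∀ h' : UValid T A K q, σ.1 ⟨q, h'⟩ = τ.1 ⟨q, h'⟩) : gq σ q = gq τ q := by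
  classical
  unfold gq
  split_ifs with h'
  · rw [h h']
  · rfl

/-- the quasi-strategy chosen by the first player at level `K` -/
noncomputable def Sof (σ : (unr T A K hK hA).Strat) (t : T.V) : Set T.V :=
  (σ.1 (mk (T.anc K t) (lev_anc_le t))).1.2.1

open Classical in
/-- a witness for membership in `Force` -/
noncomputable def wit (S A : Set T.V) (u : T.V) : T.Strat :=
  if h : u ∈ Force false S A then h.choose else T.someStrat

theorem wit_spec {S A : Set T.V} {u : T.V} (h : u ∈ Force false S A) :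
    ∀ x : T.Play, x.1 (T.lev u) = u →
    (∀ n, T.lev u ≤ n → Nat.bodd n = false → x.1 n ∉ A → x.1 (n + 1) = (wit S A u).1 (x.1 n)) →
    ∃ n, T.lev u ≤ n ∧ x.1 n ∈ A ∧ ∀ j, T.lev u ≤ j → j ≤ n → x.1 j ∈ S := by
  classical
  unfold wit
  rw [dif_pos h]
  exact h.choose_spec

/-- the nodes of `S` above `w` that avoid `F` -/
def S2 (K : ℕ) (S F : Set T.V) (w : T.V) : Set T.V :=
  {u | u ∈ S ∧ K + 2 ≤ T.lev u ∧ T.anc (K + 2) u = w ∧
    ∀ j, K + 2 ≤ j → j ≤ T.lev u → T.anc j u ∉ F}

theorem qs_S2 (hA : ∀ t u, T.IsChild t u → t ∈ A → u ∈ A)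
    {S : Set T.V} {b w : T.V} (hb : T.lev b = K + 1) (hS : QS false Set.univ b S) (hw : w ∈ S)
    (hl : T.lev w = K + 2) (hF : w ∉ Force false S A) :
    QS true S w (S2 K S (Force false S A) w) := by
  have anc_lev : ∀ {u v : T.V} {j : ℕ}, T.IsChild u v → j ≤ T.lev u → T.anc j v = T.anc j u :=
    fun h h' => anc_child h h'
  refine ⟨?_, fun u hu => hu.1, ?_, ?_, ?_, ?_⟩
  · refine ⟨hw, by omega, anc_self (by omega), fun j h1 h2 => ?_⟩
    have : j = T.lev w := by omega
    rw [this, anc_self le_rfl]; exact hF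
  · intro u hu
    exact ⟨by rw [hl]; exact hu.2.1, by rw [hl]; exact hu.2.2.1⟩
  · intro u hu h
    have hlp := T.lev_par u
    refine ⟨hS.down u hu.1 (by omega), by omega, ?_, fun j h1 h2 => ?_⟩
    · rw [anc_par (by omega)]; exact hu.2.2.1
    · rw [anc_par (by omega)]; exact hu.2.2.2 j h1 (by omega)
  · intro u hu hb'
    by_contra hno
    push Not at hno
    have hu0 : u ∉ Force false S A := by
      have := hu.2.2.2 (T.lev u) hu.2.1 le_rfl
      rwa [anc_self le_rfl] at this
    apply hu0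
    refine force_opp hA hu.1 (by rw [hb']; simp) (fun v hv => ?_)
    by_contra hvF
    have hvS : v ∈ S := hS.opp u hu.1 (by rw [hb']; simp) v (Set.mem_univ _) hv
    have hvl := hv.2
    refine hno v ⟨hvS, by have := hu.2.1; omega, ?_, fun j h1 h2 => ?_⟩ hv
    · rw [anc_lev hv hu.2.1]; exact hu.2.2.1
    · rcases Nat.lt_or_ge j (T.lev v) with h3 | h3
      · rw [anc_lev hv (by omega)]; exact hu.2.2.2 j h1 (by omega)
      · rw [anc_self h3]; exact hvF
  · intro u hu hb' v hvS hv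
    have hb2 : Nat.bodd (T.lev u) = false := by simpa using hb'
    have hu0 : u ∉ Force false S A := by
      have := hu.2.2.2 (T.lev u) hu.2.1 le_rfl
      rwa [anc_self le_rfl] at this
    have hvl := hv.2
    refine ⟨hvS, by have := hu.2.1; omega, ?_, fun j h1 h2 => ?_⟩
    · rw [anc_lev hv hu.2.1]; exact hu.2.2.1
    · rcases Nat.lt_or_ge j (T.lev v) with h3 | h3
      · rw [anc_lev hv (by omega)]; exact hu.2.2.2 j h1 (by omega)
      · rw [anc_self h3]
        intro hvF
        exact hu0 (force_own hA hu.1 hb2 hv hvF)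

theorem S2_disj {S : Set T.V} {w : T.V} : ∀ u ∈ S2 K S (Force false S A) w, u ∉ A := by
  intro u hu huA
  have := hu.2.2.2 (T.lev u) hu.2.1 le_rfl
  rw [anc_self le_rfl] at this
  exact this (force_of_mem hu.1 huA)

open Classical in
/-- the values of the transferred strategy, `S` given -/
noncomputable def val (g : UDat T → T.V) (A : Set T.V) (K : ℕ) (S : Set T.V) (t : T.V) : T.V :=
  if hF : ∃ n, K + 2 ≤ n ∧ n ≤ T.lev t ∧ T.anc n t ∈ Force false S A then
    if hA' : ∃ n, K + 2 ≤ n ∧ n ≤ T.lev t ∧ T.anc n t ∈ A then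
      g (t, S, Sum.inl (T.anc (Nat.find hA') t))
    else (wit S A (T.anc (Nat.find hF) t)).1 t
  else g (t, S, Sum.inr (S2 K S (Force false S A) (T.anc (K + 2) t)))

open Classical in
/-- the transferred strategy -/
noncomputable def phi (σ : (unr T A K hK hA).Strat) : T.Strat := by
  refine ⟨fun t => if T.lev t ≤ K then gq σ (t, ∅, Sum.inr ∅) else val (gq σ) A K (Sof σ t) t, ?_⟩
  intro t
  dsimp only
  split_ifs with h
  · exact gq_child σ (t, ∅, Sum.inr ∅)
  · unfold val
    split_ifs with h1 h2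
    · exact gq_child σ (t, _, _)
    · exact (wit _ _ _).2 t
    · exact gq_child σ (t, _, _)

theorem phi_low (σ : (unr T A K hK hA).Strat) {t : T.V} (h : T.lev t ≤ K) :
    (phi σ).1 t = (σ.1 (mk t h)).1.1 := by
  classical
  have : (phi σ).1 t = gq σ (mk (hK := hK) (hA := hA) t h).1 := if_pos h
  rw [this, gq_val]

theorem phi_high (σ : (unr T A K hK hA).Strat) {t : T.V} (h : K < T.lev t) :
    (phi σ).1 t = val (gq σ) A K (Sof σ t) t := by
  classical
  exact if_neg (by omega)

/-- locality -/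
theorem phi_loc (hK' : Nat.bodd K = false) (σ τ : (unr T A K hK hA).Strat) (n : ℕ)
    (h : ∀ t, (unr T A K hK hA).lev t < n → Nat.bodd ((unr T A K hK hA).lev t) = false →
      σ.1 t = τ.1 t) (t : T.V) (ht : T.lev t < n) (hb : Nat.bodd (T.lev t) = false) :
    (phi σ).1 t = (phi τ).1 t := by
  classical
  rcases Nat.lt_or_ge K (T.lev t) with h1 | h1
  · rw [phi_high σ h1, phi_high τ h1]
    have hl : T.lev (T.anc K t) = K := lev_anc h1.le
    have hS : Sof σ t = Sof τ t := by
      unfold Sof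
      rw [h]
      · show T.lev (T.anc K t) < n
        omega
      · show Nat.bodd (T.lev (T.anc K t)) = false
        rw [hl]; exact hK'
    have hg : ∀ q : UDat T, q.1 = t → gq σ q = gq τ q := by
      intro q hq
      refine gq_congr σ τ q (fun h' => h _ ?_ ?_)
      · show T.lev q.1 < n
        rw [hq]; exact ht
      · show Nat.bodd (T.lev q.1) = false
        rw [hq]; exact hb
    rw [hS]
    unfold val
    split_ifs with h2 h3
    · exact hg _ rfl
    · rfl
    · exact hg _ rfl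
  · rw [phi_low σ h1, phi_low τ h1, h]
    · exact ht
    · exact hb

section lift

variable (σ : (unr T A K hK hA).Strat) (x : T.Play) (hx : Follows false (phi σ) x)

theorem Sof_play {n : ℕ} (h : K ≤ n) : Sof σ (x.1 n) = Sof σ (x.1 K) := by
  have h1 : T.anc K (x.1 n) = T.anc K (x.1 K) := by
    rw [play_anc x h, play_anc x le_rfl]
  unfold Sof
  rw [mk_congr h1]

include hx in
theorem play_K1 : x.1 (K + 1) = (σ.1 (mk (x.1 K) (x.2.1 K).le)).1.1 := by
  rw [hx K hK, phi_low σ (x.2.1 K).le]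

theorem Sof_K : Sof σ (x.1 K) = (σ.1 (mk (x.1 K) (x.2.1 K).le)).1.2.1 := by
  unfold Sof
  have h1 : T.anc K (x.1 K) = x.1 K := anc_self (x.2.1 K).le
  rw [mk_congr h1]

include hx in
theorem Sof_qs : QS false Set.univ (x.1 (K + 1)) (Sof σ (x.1 K)) := by
  have h := (σ.1 (mk (x.1 K) (x.2.1 K).le)).2.S_qs ?_
  · rw [← play_K1 σ x hx, anc_self (by rw [x.2.1])] at h
    rw [Sof_K]
    exact h
  · rw [← play_K1 σ x hx, x.2.1]

include hx in
/-- before meeting `F` the play stays in `S` -/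
theorem in_S (n : ℕ) (hn : K + 2 ≤ n)
    (hF : ∀ j, K + 2 ≤ j → j < n → x.1 j ∉ Force false (Sof σ (x.1 K)) A) :
    x.1 n ∈ Sof σ (x.1 K) := by
  classical
  have hS := Sof_qs σ x hx
  have hb1 : Nat.bodd (K + 1) ≠ false := by rw [Nat.bodd_succ, hK]; simp
  have h2 : x.1 (K + 2) ∈ Sof σ (x.1 K) :=
    hS.opp (x.1 (K + 1)) hS.start (by rw [x.2.1]; exact hb1) _ (Set.mem_univ _) (play_child x (K + 1))
  induction n, hn using Nat.le_induction with
  | base => exact h2
  | succ n hn ih =>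
    have hxn := ih (fun j h1 h3 => hF j h1 (by omega))
    by_cases hb : Nat.bodd n = false
    · have hw : x.1 (K + 2) ∉ Force false (Sof σ (x.1 K)) A := hF _ le_rfl (by omega)
      have hq := qs_S2 hA (x.2.1 (K + 1)) hS h2 (x.2.1 (K + 2)) hw
      have hmem : x.1 n ∈ S2 K (Sof σ (x.1 K)) (Force false (Sof σ (x.1 K)) A) (x.1 (K + 2)) := by
        refine ⟨hxn, by rw [x.2.1]; exact hn, play_anc x hn, fun j h1 h3 => ?_⟩
        rw [x.2.1] at h3
        rw [play_anc x h3]
        exact hF j h1 (by omega)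
      have hv : UValid T A K (x.1 n, Sof σ (x.1 K),
          Sum.inr (S2 K (Sof σ (x.1 K)) (Force false (Sof σ (x.1 K)) A) (x.1 (K + 2)))) := by
        refine uvalid_inr (by rw [x.2.1]; exact hn) ?_ ?_ hmem S2_disj
        · rw [play_anc x (by omega)]; exact hS
        · rw [play_anc x hn]; exact hq
      have hnF : ¬ ∃ j, K + 2 ≤ j ∧ j ≤ T.lev (x.1 n) ∧
          T.anc j (x.1 n) ∈ Force false (Sof σ (x.1 K)) A := by
        rintro ⟨j, h1, h3, h4⟩
        rw [x.2.1] at h3
        rw [play_anc x h3] at h4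
        exact hF j h1 (by omega) h4
      have he : x.1 (n + 1) = (σ.1 ⟨_, hv⟩).1.1 := by
        rw [hx n hb, phi_high σ (by rw [x.2.1]; omega), Sof_play σ x (by omega)]
        unfold val
        rw [dif_neg hnF, play_anc x hn]
        exact gq_val σ ⟨_, hv⟩
      have hc := σ.2 ⟨_, hv⟩
      have ho := unr_child_o hc (by show K + 2 ≤ T.lev (x.1 n); rw [x.2.1]; exact hn)
      have hSS := unr_child_S hc (by show K + 1 ≤ T.lev (x.1 n); rw [x.2.1]; omega)
      have h5 := (σ.1 ⟨_, hv⟩).2.o_inr (by rw [← he, x.2.1]; omega) _ ho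
      rw [← he] at h5
      exact h5.2.1.1
    · exact hS.opp (x.1 n) hxn (by rw [x.2.1]; exact hb) _ (Set.mem_univ _) (play_child x n)

include hx in
/-- a play over `x` whose moves after level `K + 2` are the right ones follows `σ` -/
theorem follows_of (y : (unr T A K hK hA).Play)
    (hy : (unrMap T A K hK hA).play y = x) (hyS : ∀ n, K + 1 ≤ n → (y.1 n).1.2.1 = Sof σ (x.1 K))
    (h : ∀ n, K + 2 ≤ n → Nat.bodd n = false → x.1 (n + 1) = (σ.1 (y.1 n)).1.1) :
    Follows false σ y := by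
  have hyx : ∀ n, (y.1 n).1.1 = x.1 n := fun n => by rw [← hy]; rfl
  have hlow : ∀ n (hn : n ≤ K), y.1 n = mk (x.1 n) (by rw [x.2.1]; exact hn) := by
    intro n hn
    apply Subtype.ext
    rw [unr_low (by rw [hyx, x.2.1]; exact hn), hyx]
    rfl
  intro n hb
  rcases Nat.lt_or_ge n K with h1 | h1
  · -- low levels
    have e1 : (σ.1 (y.1 n)).1.1 = x.1 (n + 1) := by
      rw [hlow n h1.le, hx n hb, phi_low σ (by rw [x.2.1]; exact h1.le)]
    rw [hlow (n + 1) h1]
    apply Subtype.ext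
    rw [unr_low (q := σ.1 (y.1 n)) (by rw [e1, x.2.1]; exact h1), e1]
    rfl
  rcases Nat.eq_or_lt_of_le h1 with h2 | h2
  · subst h2
    have e1 : (σ.1 (y.1 K)).1.1 = x.1 (K + 1) := by
      rw [hlow K le_rfl, play_K1 σ x hx]
    have e2 : (σ.1 (y.1 K)).1.2.1 = Sof σ (x.1 K) := by
      rw [hlow K le_rfl, Sof_K]
    apply Subtype.ext
    refine Prod.ext (by rw [hyx, e1]) (Prod.ext ((hyS _ le_rfl).trans e2.symm) ?_)
    rw [(y.1 (K + 1)).2.o_low (by rw [hyx, x.2.1]), (σ.1 (y.1 K)).2.o_low (by rw [e1, x.2.1])]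
  · have h3 : K + 2 ≤ n := by
      rcases Nat.eq_or_lt_of_le h2 with h4 | h4
      · exfalso
        rw [← h4, Nat.bodd_succ, hK] at hb
        simp at hb
      · exact h4
    refine unr_child_ext (play_child y n) (σ.2 (y.1 n)) (by rw [hyx, x.2.1]; exact h3) ?_
    rw [hyx, h n h3 hb]

include hx in
theorem lift_exists : ∃ y : (unr T A K hK hA).Play, Follows false σ y ∧
    (unrMap T A K hK hA).play y = x := by
  classical
  have hS := Sof_qs σ x hx
  have hlev : ∀ n, T.lev (x.1 n) = n := x.2.1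
  by_cases hF : ∃ n, K + 2 ≤ n ∧ x.1 n ∈ Force false (Sof σ (x.1 K)) A
  · -- the play meets `F`
    obtain ⟨hn0, hn0F⟩ := Nat.find_spec hF
    have hmin : ∀ j, K + 2 ≤ j → j < Nat.find hF → x.1 j ∉ Force false (Sof σ (x.1 K)) A :=
      fun j h1 h2 h3 => Nat.find_min hF h2 ⟨h1, h3⟩
    set n0 := Nat.find hF with hn0def
    have hFn : ∀ n, n0 ≤ n → ∃ h : (∃ j, K + 2 ≤ j ∧ j ≤ T.lev (x.1 n) ∧
        T.anc j (x.1 n) ∈ Force false (Sof σ (x.1 K)) A), Nat.find h = n0 := by
      intro n hn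
      have hex : ∃ j, K + 2 ≤ j ∧ j ≤ T.lev (x.1 n) ∧
          T.anc j (x.1 n) ∈ Force false (Sof σ (x.1 K)) A :=
        ⟨n0, hn0, by rw [hlev]; exact hn, by rw [play_anc x hn]; exact hn0F⟩
      refine ⟨hex, ?_⟩
      rw [Nat.find_eq_iff]
      refine ⟨⟨hn0, by rw [hlev]; exact hn, by rw [play_anc x hn]; exact hn0F⟩, ?_⟩
      rintro j hj ⟨h1, h2, h3⟩
      rw [hlev] at h2
      rw [play_anc x h2] at h3
      exact hmin j h1 hj h3
    have hwit := wit_spec hn0F x (by rw [hlev])
      (by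
        intro n hn hb hnA
        rw [hlev] at hn
        obtain ⟨hex, hfind⟩ := hFn n hn
        have hnA' : ¬ ∃ j, K + 2 ≤ j ∧ j ≤ T.lev (x.1 n) ∧ T.anc j (x.1 n) ∈ A := by
          rintro ⟨j, h1, h2, h3⟩
          rw [hlev] at h2
          rw [play_anc x h2] at h3
          apply hnA
          clear hfind hex hb hn hnA
          induction n, h2 using Nat.le_induction with
          | base => exact h3
          | succ n hn ih => exact hA _ _ (play_child x n) ih
        rw [hx n hb, phi_high σ (by rw [hlev]; omega), Sof_play σ x (by omega)]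
        unfold val
        rw [dif_pos hex, dif_neg hnA', hfind, play_anc x hn])
    obtain ⟨n1, hn1, hn1A, hn1S⟩ := hwit
    rw [hlev] at hn1
    have hAex : ∃ n, K + 2 ≤ n ∧ x.1 n ∈ A := ⟨n1, by omega, hn1A⟩
    obtain ⟨hn2, hn2A⟩ := Nat.find_spec hAex
    have hminA : ∀ j, K + 2 ≤ j → j < Nat.find hAex → x.1 j ∉ A :=
      fun j h1 h2 h3 => Nat.find_min hAex h2 ⟨h1, h3⟩
    have hn21 : Nat.find hAex ≤ n1 := Nat.find_min' hAex ⟨by omega, hn1A⟩
    set n2 := Nat.find hAex with hn2def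
    have hn2S : x.1 n2 ∈ Sof σ (x.1 K) := by
      rcases Nat.lt_or_ge n2 n0 with h1 | h1
      · exact in_S σ x hx n2 hn2 (fun j h2 h3 => hmin j h2 (by omega))
      · exact hn1S n2 (by rw [hlev]; exact h1) hn21
    have hn02 : n0 ≤ n2 := by
      by_contra hlt
      exact hmin n2 hn2 (by omega) (force_of_mem hn2S hn2A)
    obtain ⟨y, hy1, hy2, hy3⟩ := unr_play (hK := hK) (hA := hA) x (Sof σ (x.1 K))
      (Sum.inl (x.1 n2)) hS
      (by
        intro v hv
        have : x.1 n2 = v := Sum.inl.inj hv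
        subst this
        exact ⟨hn2S, hn2A, by rw [hlev]; exact hn2, by rw [hlev]⟩)
      (by intro S' h; cases h)
    refine ⟨y, follows_of σ x hx y hy1 hy2 ?_, hy1⟩
    intro n hn hb
    have hyx : ∀ n, (y.1 n).1.1 = x.1 n := fun n => by rw [← hy1]; rfl
    rcases Nat.lt_or_ge n n2 with h1 | h1
    · -- forced
      have hc := σ.2 (y.1 n)
      have ho : (σ.1 (y.1 n)).1.2.2 = Sum.inl (x.1 n2) :=
        (unr_child_o hc (by rw [hyx, hlev]; exact hn)).trans (hy3 n hn)
      have hl : T.lev (σ.1 (y.1 n)).1.1 = n + 1 := by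
        have := (unr_child_T hc).2
        rw [this, hyx, hlev]
      obtain ⟨_, _, _, h4⟩ := (σ.1 (y.1 n)).2.o_inl (by rw [hl]; omega) _ ho
      rw [hl, hlev] at h4
      rcases h4 with ⟨h5, h6⟩ | ⟨h5, h6⟩
      · rw [← h6, play_anc x h5]
      · have h7 : n + 1 = n2 := by omega
        rw [anc_self (by rw [hl]; omega)] at h6
        rw [h6, h7]
    · obtain ⟨hex, _⟩ := hFn n (by omega)
      have hAn : ∃ j, K + 2 ≤ j ∧ j ≤ T.lev (x.1 n) ∧ T.anc j (x.1 n) ∈ A :=
        ⟨n2, hn2, by rw [hlev]; exact h1, by rw [play_anc x h1]; exact hn2A⟩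
      have hfind : Nat.find hAn = n2 := by
        rw [Nat.find_eq_iff]
        refine ⟨⟨hn2, by rw [hlev]; exact h1, by rw [play_anc x h1]; exact hn2A⟩, ?_⟩
        rintro j hj ⟨h3, h4, h5⟩
        rw [hlev] at h4
        rw [play_anc x h4] at h5
        exact hminA j h3 hj h5
      rw [hx n hb, phi_high σ (by rw [hlev]; omega), Sof_play σ x (by omega)]
      unfold val
      rw [dif_pos hex, dif_pos hAn, hfind, play_anc x h1, ← gq_val]
      congr 1
      exact Prod.ext (hyx n).symm (Prod.ext (hy2 n (by omega)).symm (hy3 n hn).symm)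
  · -- the play avoids `F`
    push Not at hF
    have hin : ∀ n, K + 2 ≤ n → x.1 n ∈ Sof σ (x.1 K) :=
      fun n hn => in_S σ x hx n hn (fun j h1 _ => hF j h1)
    obtain ⟨y, hy1, hy2, hy3⟩ := unr_play (hK := hK) (hA := hA) x (Sof σ (x.1 K))
      (Sum.inr (S2 K (Sof σ (x.1 K)) (Force false (Sof σ (x.1 K)) A) (x.1 (K + 2)))) hS
      (by intro v hv; cases hv)
      (by
        intro S' hS'
        have := Sum.inr.inj hS'
        subst this
        refine ⟨qs_S2 hA (x.2.1 (K + 1)) hS (hin _ le_rfl) (x.2.1 (K + 2)) (hF _ le_rfl),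
          fun n hn => ⟨hin n hn, by rw [hlev]; exact hn, play_anc x hn, fun j h1 h2 => ?_⟩, S2_disj⟩
        rw [hlev] at h2
        rw [play_anc x h2]
        exact hF j h1)
    refine ⟨y, follows_of σ x hx y hy1 hy2 ?_, hy1⟩
    intro n hn hb
    have hyx : ∀ n, (y.1 n).1.1 = x.1 n := fun n => by rw [← hy1]; rfl
    have hnF : ¬ ∃ j, K + 2 ≤ j ∧ j ≤ T.lev (x.1 n) ∧
        T.anc j (x.1 n) ∈ Force false (Sof σ (x.1 K)) A := by
      rintro ⟨j, h1, h3, h4⟩
      rw [hlev] at h3
      rw [play_anc x h3] at h4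
      exact hF j h1 h4
    rw [hx n hb, phi_high σ (by rw [hlev]; omega), Sof_play σ x (by omega)]
    unfold val
    rw [dif_neg hnF, play_anc x hn, ← gq_val]
    congr 1
    exact Prod.ext (hyx n).symm (Prod.ext (hy2 n (by omega)).symm (hy3 n hn).symm)

end lift

end UnrI

/-- strategies of the first player -/
theorem unr_stratI {T : GT} {A : Set T.V} {K : ℕ} {hK : Nat.bodd K = false}
    {hA : ∀ t u, T.IsChild t u → t ∈ A → u ∈ A} {m : ℕ} (hm : m ≤ K) :
    ∃ φ, (unrMap T A K hK hA).Good m false φ := by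
  refine ⟨UnrI.phi, ⟨?_, ?_, ?_⟩⟩
  · intro σ τ n h t ht hb
    exact UnrI.phi_loc hK σ τ n h t ht hb
  · intro σ s hs _
    have hs' : T.lev s.1.1 ≤ K := le_trans (le_of_lt hs) hm
    have : s = UnrI.mk s.1.1 hs' := by
      apply Subtype.ext
      exact unr_low hs'
    rw [unrMap_f, unrMap_f, UnrI.phi_low σ hs', ← this]
  · intro σ x hx
    exact UnrI.lift_exists σ x hx

end Pool.Agent.Helper85.Det
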