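import Pool.Agent.Helper85.BFC.Det.Unr
import Pool.Agent.Helper85.BFC.Det.Force

/-!
# Unravelling a closed set: strategies of the second player
-/

set_option autoImplicit false

namespace Pool.Agent.Helper85.Det

open Pool.Agent.Helper85.Det.GT

namespace UII

section tree

variable {T : GT}

/-- having an ancestor-or-self in `R` -/
def upc (R : Set T.V) : Set T.V := {t | ∃ j, T.anc j t ∈ R}

theorem upc_child {R : Set T.V} (t u : T.V) (h : T.IsChild t u) (ht : t ∈ upc R) : u ∈ upc R := by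
  obtain ⟨j, hj⟩ := ht
  rcases Nat.lt_or_ge (T.lev t) j with h1 | h1
  · rw [anc_self h1.le] at hj
    exact ⟨T.lev t, by rw [anc_child h le_rfl, anc_self le_rfl]; exact hj⟩
  · exact ⟨j, by rw [anc_child h h1]; exact hj⟩

theorem upc_self {R : Set T.V} {t : T.V} (ht : t ∈ R) : t ∈ upc R :=
  ⟨T.lev t, by rw [anc_self le_rfl]; exact ht⟩

/-- the nodes from which the second player can force to reach `upc R` -/
def FF (R : Set T.V) : Set T.V := Force true Set.univ (upc R)

theorem sub_FF {R : Set T.V} {t : T.V} (ht : t ∈ upc R) : t ∈ FF R :=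
  force_of_mem (Set.mem_univ _) ht

/-- the nodes above `b` without ancestor-or-self (of level at least `L`) in `F` -/
def SS (L : ℕ) (F : Set T.V) (b : T.V) : Set T.V :=
  {u | L ≤ T.lev u ∧ T.anc L u = b ∧ ∀ j, L ≤ j → T.anc j u ∉ F}

theorem qs_SS {R : Set T.V} {b : T.V} (hb : b ∉ FF R) :
    QS false Set.univ b (SS (T.lev b) (FF R) b) := by
  have key : ∀ u ∈ SS (T.lev b) (FF R) b, ∀ v, T.IsChild u v → v ∉ SS (T.lev b) (FF R) b →
      v ∈ FF R := by
    intro u hu v hv hvS
    by_contra hvF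
    apply hvS
    have h2 := hv.2
    refine ⟨by have := hu.1; omega, by rw [anc_child hv hu.1]; exact hu.2.1, fun j hj => ?_⟩
    rcases Nat.lt_or_ge (T.lev u) j with h1 | h1
    · rw [anc_self (by omega)]; exact hvF
    · rw [anc_child hv h1]; exact hu.2.2 j hj
  have notin : ∀ u ∈ SS (T.lev b) (FF R) b, u ∉ FF R := by
    intro u hu
    have := hu.2.2 (T.lev u) hu.1
    rwa [anc_self le_rfl] at this
  exact
  { start := ⟨le_rfl, anc_self le_rfl, fun j hj => by rw [anc_self hj]; exact hb⟩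
    sub := fun _ _ => Set.mem_univ _
    above := fun u hu => ⟨hu.1, hu.2.1⟩
    down := fun u hu h => by
      refine ⟨by rw [T.lev_par]; omega, by rw [anc_par h]; exact hu.2.1, fun j hj => ?_⟩
      rcases Nat.lt_or_ge j (T.lev u) with h1 | h1
      · rw [anc_par h1]; exact hu.2.2 j hj
      · rw [anc_self (by rw [T.lev_par]; omega)]
        have h3 := hu.2.2 (T.lev u - 1) (by omega)
        have h4 := par_anc (T := T) (n := T.lev u - 1) (t := u) (by omega)
        rw [show T.lev u - 1 + 1 = T.lev u by omega, anc_self le_rfl] at h4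
        rw [h4]; exact h3
    own := fun u hu hb' => by
      by_contra hcon
      push Not at hcon
      refine notin u hu (force_opp upc_child (Set.mem_univ _) (by rw [hb']; simp) fun v hv => ?_)
      exact key u hu v hv fun hvS => hcon v hvS hv
    opp := fun u hu hb' v _ hv => by
      by_contra hcon
      refine notin u hu (force_own upc_child (Set.mem_univ _) ?_ hv (key u hu v hv hcon))
      cases hc : Nat.bodd (T.lev u)
      · exact absurd hc hb'
      · rfl }

open Classical in
/-- the lowest ancestor-or-self of level at least `L` in `X` -/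
noncomputable def lowest (L : ℕ) (X : Set T.V) (t : T.V) : T.V :=
  if h : ∃ j, L ≤ j ∧ T.anc j t ∈ X then T.anc (Nat.find h) t else t

theorem lowest_play {L : ℕ} {X : Set T.V} {x : T.Play} {n k : ℕ} (hL : L ≤ n) (hn : x.1 n ∈ X)
    (hmin : ∀ j, L ≤ j → j < n → x.1 j ∉ X) (hk : n ≤ k) : lowest L X (x.1 k) = x.1 n := by
  classical
  have h : ∃ j, L ≤ j ∧ T.anc j (x.1 k) ∈ X := ⟨n, hL, by rw [play_anc x hk]; exact hn⟩
  unfold lowest
  rw [dif_pos h]
  have e : Nat.find h = n := by
    rw [Nat.find_eq_iff]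
    refine ⟨⟨hL, by rw [play_anc x hk]; exact hn⟩, ?_⟩
    rintro j hj ⟨h1, h2⟩
    rw [play_anc x (by omega)] at h2
    exact hmin j h1 hj h2
  rw [e, play_anc x hk]

open Classical in
/-- a strategy witnessing `u ∈ FF R` -/
noncomputable def tau (R : Set T.V) (u : T.V) : T.Strat :=
  if h : u ∈ FF R then h.choose else T.someStrat

theorem tau_spec {R : Set T.V} {u : T.V} (h : u ∈ FF R) (x : T.Play) (hx : x.1 (T.lev u) = u)
    (hf : ∀ n, T.lev u ≤ n → Nat.bodd n = true → x.1 n ∉ upc R →
      x.1 (n + 1) = (tau R u).1 (x.1 n)) : ∃ n, T.lev u ≤ n ∧ x.1 n ∈ upc R := by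
  have h1 := h.choose_spec x hx
  unfold tau at hf
  rw [dif_pos h] at hf
  obtain ⟨n, h2, h3, -⟩ := h1 hf
  exact ⟨n, h2, h3⟩

end tree

variable {T : GT} {K : ℕ}

/-- the nodes the second player can announce against some quasi-strategy -/
def RR (K : ℕ) (b : T.V) (g : Set T.V → UDat T) : Set T.V :=
  {v | K + 2 ≤ T.lev v ∧ ∃ S', QS false Set.univ b S' ∧ g S' = (T.anc (K + 2) v, S', Sum.inl v)}

open Classical in
/-- the quasi-strategy against which `v` is announced -/
noncomputable def Sp (K : ℕ) (b : T.V) (g : Set T.V → UDat T) (v : T.V) : Set T.V :=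
  if h : ∃ S', QS false Set.univ b S' ∧ g S' = (T.anc (K + 2) v, S', Sum.inl v) then h.choose else ∅

theorem Sp_spec {b : T.V} {g : Set T.V → UDat T} {v : T.V} (hv : v ∈ RR K b g) :
    QS false Set.univ b (Sp K b g v) ∧
      g (Sp K b g v) = (T.anc (K + 2) v, Sp K b g v, Sum.inl v) := by
  unfold Sp
  rw [dif_pos hv.2]
  exact hv.2.choose_spec

open Classical in
/-- the answer at a node of level at least `K + 1` -/
noncomputable def core (K : ℕ) (b : T.V) (g : Set T.V → UDat T)
    (f : Set T.V → T.V ⊕ Set T.V → T.V) (t : T.V) : T.V :=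
  if ∃ j, K + 1 ≤ j ∧ T.anc j t ∈ FF (RR K b g) then
    if ∃ j, K + 1 ≤ j ∧ T.anc j t ∈ RR K b g then
      f (Sp K b g (lowest (K + 1) (RR K b g) t)) (Sum.inl (lowest (K + 1) (RR K b g) t))
    else (tau (RR K b g) (lowest (K + 1) (FF (RR K b g)) t)).1 t
  else if T.lev t = K + 1 then (g (SS (K + 1) (FF (RR K b g)) b)).1
    else f (SS (K + 1) (FF (RR K b g)) b) (g (SS (K + 1) (FF (RR K b g)) b)).2.2

variable {A : Set T.V} {hK : Nat.bodd K = false} {hA : ∀ t u, T.IsChild t u → t ∈ A → u ∈ A}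

open Classical in
/-- the strategy on raw data -/
noncomputable def app (σ : (unr T A K hK hA).Strat) (q : UDat T) : UDat T :=
  if h : UValid T A K q then (σ.1 ⟨q, h⟩).1 else q

theorem app_eq (σ : (unr T A K hK hA).Strat) (q : (unr T A K hK hA).V) :
    app σ q.1 = (σ.1 q).1 := dif_pos q.2

theorem app_loc {σ τ : (unr T A K hK hA).Strat} {n : ℕ}
    (h : ∀ t, (unr T A K hK hA).lev t < n → Nat.bodd ((unr T A K hK hA).lev t) = true →
      σ.1 t = τ.1 t) (q : UDat T) (hn : T.lev q.1 < n) (hb : Nat.bodd (T.lev q.1) = true) :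
    app σ q = app τ q := by
  unfold app
  split_ifs with hv
  · rw [h ⟨q, hv⟩ hn hb]
  · rfl

/-- the answer -/
noncomputable def phi0 (σ : (unr T A K hK hA).Strat) (t : T.V) : T.V :=
  if T.lev t ≤ K then (app σ (t, ∅, Sum.inr ∅)).1
  else core K (T.anc (K + 1) t) (fun S' => app σ (T.anc (K + 1) t, S', Sum.inr ∅))
    (fun S o => (app σ (t, S, o)).1) t

open Classical in
/-- the translated strategy -/
noncomputable def phi (σ : (unr T A K hK hA).Strat) : T.Strat :=
  ⟨fun t => if T.IsChild t (phi0 σ t) then phi0 σ t else T.someStrat.1 t, fun t => by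
    dsimp only
    split_ifs with h
    · exact h
    · exact T.someStrat.2 t⟩

theorem phi_eq {σ : (unr T A K hK hA).Strat} {t : T.V} (h : T.IsChild t (phi0 σ t)) :
    (phi σ).1 t = phi0 σ t := if_pos h

theorem phi0_loc {σ τ : (unr T A K hK hA).Strat} {n : ℕ}
    (h : ∀ t, (unr T A K hK hA).lev t < n → Nat.bodd ((unr T A K hK hA).lev t) = true →
      σ.1 t = τ.1 t) (t : T.V) (hn : T.lev t < n) (hb : Nat.bodd (T.lev t) = true) :
    phi0 σ t = phi0 τ t := by
  unfold phi0
  split_ifs with h1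
  · rw [app_loc h _ hn hb]
  · have h2 : T.lev (T.anc (K + 1) t) = K + 1 := lev_anc (by omega)
    have e1 : (fun S' => app σ (T.anc (K + 1) t, S', Sum.inr ∅)) =
        (fun S' => app τ (T.anc (K + 1) t, S', Sum.inr ∅)) := by
      funext S'
      exact app_loc h _ (by show T.lev (T.anc (K + 1) t) < n; omega)
        (by show Nat.bodd (T.lev (T.anc (K + 1) t)) = true; rw [h2, Nat.bodd_succ, hK]; rfl)
    have e2 : (fun (S : Set T.V) (o : T.V ⊕ Set T.V) => (app σ (t, S, o)).1) =
        (fun S o => (app τ (t, S, o)).1) := by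
      funext S o
      rw [app_loc h _ hn hb]
    rw [e1, e2]

theorem app_facts (σ : (unr T A K hK hA).Strat) {q : UDat T} (hq : UValid T A K q) :
    UValid T A K (app σ q) ∧ T.IsChild q.1 (app σ q).1 ∧
      (K + 1 ≤ T.lev q.1 → (app σ q).2.1 = q.2.1) ∧
      (K + 2 ≤ T.lev q.1 → (app σ q).2.2 = q.2.2) := by
  have e := app_eq σ ⟨q, hq⟩
  simp only at e
  rw [e]
  exact ⟨(σ.1 ⟨q, hq⟩).2, unr_child_T (σ.2 ⟨q, hq⟩), fun h => unr_child_S (σ.2 ⟨q, hq⟩) h,
    fun h => unr_child_o (σ.2 ⟨q, hq⟩) h⟩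

/-- the play `y` over `x` follows `σ`, if the answers at the raw data are right -/
theorem follows_of (σ : (unr T A K hK hA).Strat) (x : T.Play) (y : (unr T A K hK hA).Play)
    (S : Set T.V) (o : T.V ⊕ Set T.V) (hyx : (unrMap T A K hK hA).play y = x)
    (hS : ∀ n, K + 1 ≤ n → (y.1 n).1.2.1 = S) (ho : ∀ n, K + 2 ≤ n → (y.1 n).1.2.2 = o)
    (h1 : ∀ n, Nat.bodd n = true → n < K → x.1 (n + 1) = (app σ (x.1 n, ∅, Sum.inr ∅)).1)
    (h2 : app σ (x.1 (K + 1), S, Sum.inr ∅) = (x.1 (K + 2), S, o))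
    (h3 : ∀ n, Nat.bodd n = true → K + 2 ≤ n → x.1 (n + 1) = (app σ (x.1 n, S, o)).1) :
    Follows true σ y := by
  intro n hn
  have hx : ∀ k, (y.1 k).1.1 = x.1 k := fun k => by rw [← hyx]; rfl
  have hlev : ∀ k, T.lev (y.1 k).1.1 = k := fun k => y.2.1 k
  have c1 := play_child y n
  have c2 := σ.2 (y.1 n)
  have e0 := app_eq σ (y.1 n)
  have hnK : n ≠ K := by
    rintro rfl
    rw [hK] at hn
    exact absurd hn (by simp)
  rcases Nat.lt_or_ge n (K + 1) with h | h
  · have hlt : n < K := by omega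
    have e1 : (y.1 n).1 = (x.1 n, ∅, Sum.inr ∅) := by
      rw [unr_low (q := y.1 n) (by rw [hlev]; omega), hx]
    refine unr_inj (m := K) le_rfl _ _ (by rw [y.2.1]; omega) ?_
    rw [unrMap_f, unrMap_f, hx, h1 n hn hlt, ← e1, e0]
  · rcases Nat.eq_or_lt_of_le h with h' | h'
    · subst h'
      have e1 : (y.1 (K + 1)).1 = (x.1 (K + 1), S, Sum.inr ∅) := by
        refine Prod.ext (hx _) (Prod.ext (hS _ le_rfl) ?_)
        exact (y.1 (K + 1)).2.o_low (by rw [hlev])
      apply Subtype.ext
      rw [← e0, e1, h2]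
      exact Prod.ext (hx _) (Prod.ext (hS _ (by omega)) (ho _ le_rfl))
    · have e1 : (y.1 n).1 = (x.1 n, S, o) :=
        Prod.ext (hx _) (Prod.ext (hS _ h) (ho _ (by omega)))
      refine unr_child_ext c1 c2 (by rw [hlev]; omega) ?_
      rw [hx, h3 n hn (by omega), ← e1, e0]

end UII

open UII in
/-- Strategies of the second player. -/
theorem unr_stratII {T : GT} {A : Set T.V} {K : ℕ} {hK : Nat.bodd K = false}
    {hA : ∀ t u, T.IsChild t u → t ∈ A → u ∈ A} {m : ℕ} (hm : m ≤ K) :
    ∃ φ, (unrMap T A K hK hA).Good m true φ := by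
  classical
  refine ⟨phi, ?_, ?_, ?_⟩
  · -- locality
    intro σ τ n h t hn hb
    have e := phi0_loc h t hn hb
    change (if T.IsChild t (phi0 σ t) then phi0 σ t else T.someStrat.1 t) =
      if T.IsChild t (phi0 τ t) then phi0 τ t else T.someStrat.1 t
    rw [e]
  · -- low levels
    intro σ s hs hb
    have hs' : T.lev s.1.1 ≤ K := by
      have : T.lev s.1.1 < m := hs
      omega
    have e1 : phi0 σ s.1.1 = (σ.1 s).1.1 := by
      unfold phi0
      rw [if_pos hs', ← unr_low hs', app_eq]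
    have e2 : T.IsChild s.1.1 (phi0 σ s.1.1) := by
      rw [e1]; exact unr_child_T (σ.2 s)
    change (phi σ).1 s.1.1 = (σ.1 s).1.1
    rw [phi_eq e2, e1]
  · -- lifting
    intro σ x hx
    have hlev := x.2.1
    set b := x.1 (K + 1) with hb
    have hlb : T.lev b = K + 1 := hlev _
    set g : Set T.V → UDat T := fun S' => app σ (b, S', Sum.inr ∅) with hg
    set R := RR K b g with hR
    have hanc : ∀ n, K + 1 ≤ n → T.anc (K + 1) (x.1 n) = b := fun n hn => play_anc x hn
    have hphi : ∀ n, Nat.bodd n = true → T.IsChild (x.1 n) (phi0 σ (x.1 n)) →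
        x.1 (n + 1) = phi0 σ (x.1 n) := by
      intro n hn hc
      rw [hx n hn, phi_eq hc]
    have hphi0 : ∀ n, K + 1 ≤ n → phi0 σ (x.1 n) =
        core K b g (fun S o => (app σ (x.1 n, S, o)).1) (x.1 n) := by
      intro n hn
      unfold phi0
      rw [if_neg (by rw [hlev]; omega), hanc n hn]
    -- the levels below `K`
    have hlowlev : ∀ n, Nat.bodd n = true → n < K →
        x.1 (n + 1) = (app σ (x.1 n, ∅, Sum.inr ∅)).1 := by
      intro n hn hlt
      have e1 : phi0 σ (x.1 n) = (app σ (x.1 n, ∅, Sum.inr ∅)).1 := by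
        unfold phi0
        rw [if_pos (by rw [hlev]; omega)]
      have hv : UValid T A K (x.1 n, ∅, Sum.inr ∅) := uvalid_low (by rw [hlev]; omega)
      rw [hphi n hn (by rw [e1]; exact (app_facts σ hv).2.1), e1]
    by_cases hF : ∃ n, K + 1 ≤ n ∧ x.1 n ∈ FF R
    · -- Case I
      obtain ⟨n0, ⟨hn0, hn0F⟩, hmin0⟩ : ∃ n, (K + 1 ≤ n ∧ x.1 n ∈ FF R) ∧
          ∀ j, K + 1 ≤ j → j < n → x.1 j ∉ FF R :=
        ⟨Nat.find hF, Nat.find_spec hF, fun j h1 h2 h3 => Nat.find_min hF h2 ⟨h1, h3⟩⟩
      have hFk : ∀ k, n0 ≤ k → ∃ j, K + 1 ≤ j ∧ T.anc j (x.1 k) ∈ FF R := fun k hk =>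
        ⟨n0, hn0, by rw [play_anc x hk]; exact hn0F⟩
      obtain ⟨n1, hn1, hn1R⟩ : ∃ n, n0 ≤ n ∧ x.1 n ∈ upc R := by
        have h1 := tau_spec hn0F x (by rw [hlev]) (by
          intro n hn hbn hnR
          rw [hlev] at hn
          have e1 : phi0 σ (x.1 n) = (tau R (x.1 n0)).1 (x.1 n) := by
            rw [hphi0 n (by omega)]
            unfold core
            rw [if_pos (hFk n hn), if_neg, lowest_play hn0 hn0F hmin0 hn]
            rintro ⟨j, _, hj⟩
            exact hnR ⟨j, hj⟩
          rw [hphi n hbn (by rw [e1]; exact (tau R (x.1 n0)).2 _), e1])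
        rw [hlev] at h1
        exact h1
      have hexR : ∃ n, K + 1 ≤ n ∧ x.1 n ∈ R := by
        obtain ⟨j, hj⟩ := hn1R
        have h2 : K + 2 ≤ T.lev (T.anc j (x.1 n1)) := hj.1
        rcases Nat.lt_or_ge n1 j with h3 | h3
        · rw [anc_self (by rw [hlev]; omega)] at hj
          exact ⟨n1, by omega, hj⟩
        · rw [play_anc x h3, hlev] at h2
          rw [play_anc x h3] at hj
          exact ⟨j, by omega, hj⟩
      obtain ⟨n3, ⟨hn3, hn3R⟩, hmin3⟩ : ∃ n, (K + 1 ≤ n ∧ x.1 n ∈ R) ∧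
          ∀ j, K + 1 ≤ j → j < n → x.1 j ∉ R :=
        ⟨Nat.find hexR, Nat.find_spec hexR, fun j h1 h2 h3 => Nat.find_min hexR h2 ⟨h1, h3⟩⟩
      have hn3' : K + 2 ≤ n3 := by
        have := hn3R.1
        rwa [hlev] at this
      obtain ⟨hQ, hgv⟩ := Sp_spec hn3R
      set S' := Sp K b g (x.1 n3) with hS'
      have hvb : UValid T A K (b, S', Sum.inr ∅) := uvalid_mid hlb hQ
      obtain ⟨f1, f2, f3, f4⟩ := app_facts σ hvb
      have hgv' : app σ (b, S', Sum.inr ∅) = (T.anc (K + 2) (x.1 n3), S', Sum.inl (x.1 n3)) := hgv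
      rw [hgv', play_anc x hn3'] at f1
      obtain ⟨k1, k2, k3, k4⟩ := f1.o_inl (by show K + 2 ≤ T.lev (x.1 (K + 2)); rw [hlev])
        (x.1 n3) rfl
      simp only at k1 k2 k3 k4
      obtain ⟨y, hy1, hy2, hy3⟩ := unr_play (hK := hK) (hA := hA) x S' (Sum.inl (x.1 n3)) hQ (by
          intro v hv
          have hv' : x.1 n3 = v := Sum.inl.inj hv
          rw [← hv']
          exact ⟨k1, k2, by rw [hlev]; exact hn3', by rw [hlev]⟩) (by
          intro S2 hS2
          cases hS2)
      refine ⟨y, follows_of σ x y S' _ hy1 hy2 hy3 hlowlev ?_ ?_, hy1⟩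
      · rw [← hb, hgv', play_anc x hn3']
      · intro n hbn hn
        have hvn : UValid T A K (x.1 n, S', Sum.inl (x.1 n3)) := by
          refine uvalid_inl (by rw [hlev]; exact hn) (by rw [hanc n (by omega)]; exact hQ) k1 k2
            (by rw [hlev]; exact hn3') ?_
          rcases Nat.le_total n n3 with h5 | h5
          · left
            rw [hlev, hlev]
            exact ⟨h5, play_anc x h5⟩
          · right
            rw [hlev, hlev]
            exact ⟨h5, play_anc x h5⟩
        obtain ⟨p1, p2, p3, p4⟩ := app_facts σ hvn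
        rcases Nat.lt_or_ge n n3 with h5 | h5
        · have hl : T.lev (app σ (x.1 n, S', Sum.inl (x.1 n3))).1 = n + 1 := by
            rw [p2.2, hlev]
          have hoo := p1.o_inl (by rw [hl]; omega) (x.1 n3) (p4 (by rw [hlev]; exact hn))
          rw [hl, hlev] at hoo
          rcases hoo.2.2.2 with ⟨h6, h7⟩ | ⟨h6, h7⟩
          · rw [← h7, play_anc x h6]
          · have h8 : n + 1 = n3 := by omega
            rw [anc_self (by rw [hl]; omega)] at h7
            rw [h7, h8]
        · have e1 : phi0 σ (x.1 n) = (app σ (x.1 n, S', Sum.inl (x.1 n3))).1 := by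
            rw [hphi0 n (by omega)]
            unfold core
            have hFn : ∃ j, K + 1 ≤ j ∧ T.anc j (x.1 n) ∈ FF R :=
              ⟨n3, hn3, by rw [play_anc x h5]; exact sub_FF (upc_self hn3R)⟩
            rw [if_pos hFn, if_pos ⟨n3, hn3, by rw [play_anc x h5]; exact hn3R⟩,
              lowest_play hn3 hn3R hmin3 h5]
          rw [hphi n hbn (by rw [e1]; exact p2), e1]
    · -- Case II
      push Not at hF
      have hbF : b ∉ FF R := hF (K + 1) le_rfl
      have hQ0 := qs_SS hbF
      rw [hlb] at hQ0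
      set S0 := SS (K + 1) (FF R) b with hS0
      have hvb : UValid T A K (b, S0, Sum.inr ∅) := uvalid_mid hlb hQ0
      obtain ⟨f1, f2, f3, -⟩ := app_facts σ hvb
      have f3' : (app σ (b, S0, Sum.inr ∅)).2.1 = S0 := f3 (by show K + 1 ≤ T.lev b; omega)
      have hw : T.lev (app σ (b, S0, Sum.inr ∅)).1 = K + 2 := by
        have := f2.2
        simp only at this
        omega
      have hnotF : ∀ n, K + 1 ≤ n → ¬ ∃ j, K + 1 ≤ j ∧ T.anc j (x.1 n) ∈ FF R := by
        rintro n hn ⟨j, hj, h⟩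
        rcases Nat.lt_or_ge n j with h3 | h3
        · rw [anc_self (by rw [hlev]; omega)] at h
          exact hF n hn h
        · rw [play_anc x h3] at h
          exact hF j hj h
      have hbodd : Nat.bodd (K + 1) = true := by rw [Nat.bodd_succ, hK]; rfl
      have hxw : x.1 (K + 2) = (app σ (b, S0, Sum.inr ∅)).1 := by
        have e1 : phi0 σ (x.1 (K + 1)) = (app σ (b, S0, Sum.inr ∅)).1 := by
          rw [hphi0 (K + 1) le_rfl]
          unfold core
          rw [if_neg (hnotF (K + 1) le_rfl), if_pos (hlev _)]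
        rw [hphi (K + 1) hbodd (by rw [e1]; exact f2), e1]
      obtain ⟨S2, hS2⟩ : ∃ S2, (app σ (b, S0, Sum.inr ∅)).2.2 = Sum.inr S2 := by
        rcases ho : (app σ (b, S0, Sum.inr ∅)).2.2 with v | S2
        · exfalso
          obtain ⟨k1, k2, k3, k4⟩ := f1.o_inl (by rw [hw]) v ho
          rw [f3'] at k1
          have hvR : v ∈ R := by
            refine ⟨k3, S0, hQ0, ?_⟩
            refine Prod.ext ?_ (Prod.ext f3' ho)
            show (app σ (b, S0, Sum.inr ∅)).1 = T.anc (K + 2) v
            rw [hw] at k4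
            rcases k4 with ⟨_, h6⟩ | ⟨h6, h7⟩
            · exact h6.symm
            · have h8 : T.lev v = K + 2 := by omega
              rw [anc_self (by rw [hw]; omega)] at h7
              rw [h7, anc_self (by omega)]
          have h9 := k1.2.2 (T.lev v) (by omega)
          rw [anc_self le_rfl] at h9
          exact h9 (sub_FF (upc_self hvR))
        · exact ⟨S2, rfl⟩
      obtain ⟨q1, q2, q3⟩ := f1.o_inr (by rw [hw]) S2 hS2
      rw [f3', ← hxw, anc_self (by rw [hlev])] at q1
      rw [← hxw] at q2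
      have hval : ∀ n, K + 2 ≤ n → x.1 n ∈ S2 → UValid T A K (x.1 n, S0, Sum.inr S2) := by
        intro n hn hin
        exact uvalid_inr (by rw [hlev]; exact hn) (by rw [hanc n (by omega)]; exact hQ0)
          (by rw [play_anc x hn]; exact q1) hin q3
      have hstep : ∀ n, Nat.bodd n = true → K + 2 ≤ n → x.1 n ∈ S2 →
          x.1 (n + 1) = (app σ (x.1 n, S0, Sum.inr S2)).1 := by
        intro n hbn hn hin
        have e1 : phi0 σ (x.1 n) = (app σ (x.1 n, S0, Sum.inr S2)).1 := by
          rw [hphi0 n (by omega)]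
          unfold core
          rw [if_neg (hnotF n (by omega)), if_neg (by rw [hlev]; omega)]
          show (app σ (x.1 n, S0, (app σ (b, S0, Sum.inr ∅)).2.2)).1 = _
          rw [hS2]
        rw [hphi n hbn (by rw [e1]; exact (app_facts σ (hval n hn hin)).2.1), e1]
      have hin : ∀ n, K + 2 ≤ n → x.1 n ∈ S2 := by
        intro n hn
        induction n, hn using Nat.le_induction with
        | base => exact q2
        | succ n hn ih =>
          cases hbn : Nat.bodd n
          · refine q1.opp (x.1 n) ih (by rw [hlev, hbn]; simp) _ ?_ (play_child x n)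
            refine ⟨by rw [hlev]; omega, hanc _ (by omega), ?_⟩
            intro j hj h
            exact hnotF (n + 1) (by omega) ⟨j, hj, h⟩
          · rw [hstep n hbn hn ih]
            obtain ⟨p1, p2, p3, p4⟩ := app_facts σ (hval n hn ih)
            exact (p1.o_inr (by rw [p2.2, hlev]; omega) S2 (p4 (by rw [hlev]; exact hn))).2.1
      obtain ⟨y, hy1, hy2, hy3⟩ := unr_play (hK := hK) (hA := hA) x S0 (Sum.inr S2) hQ0 (by
          intro v hv
          cases hv) (by
          intro S3 hS3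
          have : S2 = S3 := Sum.inr.inj hS3
          subst this
          exact ⟨q1, hin, q3⟩)
      refine ⟨y, follows_of σ x y S0 _ hy1 hy2 hy3 hlowlev ?_ ?_, hy1⟩
      · rw [← hb, hxw]
        exact Prod.ext rfl (Prod.ext f3' hS2)
      · intro n hbn hn
        exact hstep n hbn hn (hin n hn)

end Pool.Agent.Helper85.Det
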