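import Pool.Agent.Helper85.BFC.Det.UnravelCore
import Pool.Agent.Helper85.BFC.Det.UnrI
import Pool.Agent.Helper85.BFC.Det.UnrII

/-!
# Unravelling of closed sets
-/

set_option autoImplicit false

namespace Pool.Agent.Helper85.Det

open Pool.Agent.Helper85.Det.GT

theorem unravel (T : GT) (A : Set T.V) (hA : ∀ t u, T.IsChild t u → t ∈ A → u ∈ A) (m : ℕ) :
    ∃ (T' : GT) (π : TMap T' T), π.IsCov m ∧ Dec {x : T'.Play | ∀ n, π.f (x.1 n) ∉ A} :=
  unravel_core (fun _ _ _ _ _ _ h => unr_stratI h) (fun _ _ _ _ _ _ h => unr_stratII h) T A hA m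

end Pool.Agent.Helper85.Det
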