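import Pool.Agent.Helper85.BFC.Det.UUCore
import Pool.Agent.Helper85.BFC.Det.Clopen
import Pool.Agent.Helper85.BFC.Det.Comp
import Pool.Agent.Helper85.BFC.Det.LimTree
import Pool.Agent.Helper85.BFC.Det.LimStrat
import Pool.Agent.Helper85.BFC.Det.Unravel

/-!
# Universally unravelable sets: closure properties and determinacy
-/

set_option autoImplicit false

namespace Pool.Agent.Helper85.Det

open Pool.Agent.Helper85.Det.GT

theorem uu_iUnion {T : GT} {X : ℕ → Set T.Play} (h : ∀ i, UU (X i)) : UU (⋃ i, X i) :=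
  uu_iUnion_core (fun h h' => isCov_comp h h')
    (fun T π m h1 h2 => exists_limit_tree T π m h1 h2)
    (fun T π m h1 L ρ h2 h3 h4 i P => limit_strat T π m h1 L ρ h2 h3 h4 i P)
    (fun T A hA m => unravel T A hA m) h

theorem uu_cyl {T : GT} (n : ℕ) (B : Set T.V) : UU {x : T.Play | x.1 n ∈ B} :=
  uu_cyl_core (fun T m => isCov_id T m) n B

theorem uu_det {T : GT} {X : Set T.Play} (h : UU X) :
    (∃ σ : T.Strat, ∀ x, Follows false σ x → x ∈ X) ∨
    (∃ σ : T.Strat, ∀ x, Follows true σ x → x ∉ X) :=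
  uu_det_core (fun _ X hX => clopen_det X hX) h

end Pool.Agent.Helper85.Det
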