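import Pool.Agent.Helper85.BFC.Det.ListTree
import Pool.Agent.Helper85.BFC.Det.UU

/-!
# Borel sets of move sequences are universally unravelable
-/

set_option autoImplicit false

namespace Pool.Agent.Helper85.Det

open GT

theorem uu_borel {M : Type} [Nonempty M] [Countable M] [MeasurableSpace M]
    [DiscreteMeasurableSpace M] (B : Set (ℕ → M)) (hB : MeasurableSet B) :
    UU {x : (listTree M).Play | moves x ∈ B} := by
  have hB' : @MeasurableSet (ℕ → M) (MeasurableSpace.generateFrom {B : Set (ℕ → M) |
      ∃ (i : ℕ) (A : Set M), MeasurableSet A ∧ Function.eval i ⁻¹' A = B}) B := by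
    rw [← MeasurableSpace.pi_eq_generateFrom_projections]
    exact hB
  refine MeasurableSpace.generateFrom_induction _
    (fun (s : Set (ℕ → M)) _ => UU {x : (listTree M).Play | moves x ∈ s}) ?_ ?_ ?_ ?_ B hB'
  · rintro s ⟨i, A, _, rfl⟩ _
    have e : {x : (listTree M).Play | moves x ∈ Function.eval i ⁻¹' A}
        = {x : (listTree M).Play | x.1 (i + 1) ∈ {l : List M | ∃ a ∈ A, l.head? = some a}} := by
      ext x
      have h := play_succ x i
      constructor
      · intro hx
        refine ⟨moves x i, hx, ?_⟩
        rw [h]; rfl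
      · rintro ⟨a, ha, hl⟩
        rw [h] at hl
        have : moves x i = a := by simpa using hl
        show moves x i ∈ A
        rw [this]; exact ha
    rw [e]
    exact uu_cyl (i + 1) _
  · have e : {x : (listTree M).Play | moves x ∈ (∅ : Set (ℕ → M))}
        = {x : (listTree M).Play | x.1 0 ∈ (∅ : Set (listTree M).V)} := by
      ext x; simp
    rw [e]
    exact uu_cyl 0 _
  · intro s _ hs
    exact uu_compl hs
  · intro f _ hf
    have e : {x : (listTree M).Play | moves x ∈ ⋃ i, f i}
        = ⋃ i, {x : (listTree M).Play | moves x ∈ f i} := by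
      ext x; simp
    rw [e]
    exact uu_iUnion hf

end Pool.Agent.Helper85.Det
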