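import Pool.Agent.Helper85.BFC.Det.Defs

/-!
# Universally unravelable sets: closure properties (core, with the main steps as hypotheses)
-/

set_option autoImplicit false

namespace Pool.Agent.Helper85.Det

open Pool.Agent.Helper85.Det.GT

/-- universally unravelable sets of plays -/
def UU {T : GT} (X : Set T.Play) : Prop :=
  ∀ (T' : GT) (f : TMap T' T) (m : ℕ), ∃ (T'' : GT) (π : TMap T'' T'), π.IsCov m ∧
    Dec {x : T''.Play | f.play (π.play x) ∈ X}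

theorem dec_compl {T : GT} {X : Set T.Play} (h : Dec X) : Dec Xᶜ := by
  intro x
  obtain ⟨n, hn⟩ := h x
  exact ⟨n, fun y hy => not_congr (hn y hy)⟩

theorem dec_preimage {T' T : GT} (π : TMap T' T) {X : Set T.Play} (h : Dec X) :
    Dec {x : T'.Play | π.play x ∈ X} := by
  intro x
  obtain ⟨n, hn⟩ := h (π.play x)
  exact ⟨n, fun y hy => hn (π.play y) (congrArg π.f hy)⟩

theorem uu_compl {T : GT} {X : Set T.Play} (h : UU X) : UU Xᶜ := by
  intro T' f m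
  obtain ⟨T'', π, hπ, hD⟩ := h T' f m
  exact ⟨T'', π, hπ, dec_compl hD⟩

theorem uu_cyl_core (hid : ∀ (T : GT) (m : ℕ), (TMap.id T).IsCov m) {T : GT} (n : ℕ)
    (B : Set T.V) : UU {x : T.Play | x.1 n ∈ B} := by
  intro T' f m
  refine ⟨T', TMap.id T', hid T' m, fun x => ⟨n, fun y hy => ?_⟩⟩
  show f.f (y.1 n) ∈ B ↔ f.f (x.1 n) ∈ B
  rw [hy]

theorem uu_det_core
    (hclopen : ∀ (T : GT) (X : Set T.Play), Dec X →
      (∃ σ : T.Strat, ∀ x, Follows false σ x → x ∈ X) ∨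
      (∃ σ : T.Strat, ∀ x, Follows true σ x → x ∉ X)) {T : GT} {X : Set T.Play} (h : UU X) :
    (∃ σ : T.Strat, ∀ x, Follows false σ x → x ∈ X) ∨
    (∃ σ : T.Strat, ∀ x, Follows true σ x → x ∉ X) := by
  obtain ⟨T'', π, hπ, hD⟩ := h T (TMap.id T) 0
  rcases hclopen T'' _ hD with ⟨σ, hσ⟩ | ⟨σ, hσ⟩
  · left
    obtain ⟨φ, hφ⟩ := hπ.strat false
    refine ⟨φ σ, fun x hx => ?_⟩
    obtain ⟨y, hy, hyx⟩ := hφ.lift σ x hx
    have h1 : (TMap.id T).play (π.play y) ∈ X := hσ y hy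
    have h2 : (TMap.id T).play (π.play y) = π.play y := play_ext fun n => rfl
    rw [h2, hyx] at h1
    exact h1
  · right
    obtain ⟨φ, hφ⟩ := hπ.strat true
    refine ⟨φ σ, fun x hx => ?_⟩
    obtain ⟨y, hy, hyx⟩ := hφ.lift σ x hx
    have h1 : (TMap.id T).play (π.play y) ∉ X := hσ y hy
    have h2 : (TMap.id T).play (π.play y) = π.play y := play_ext fun n => rfl
    rw [h2, hyx] at h1
    exact h1

theorem uu_iUnion_core
    (hcomp : ∀ {T'' T' T : GT} {π : TMap T' T} {ρ : TMap T'' T'} {m : ℕ},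
      π.IsCov m → ρ.IsCov m → (π.comp ρ).IsCov m)
    (hLT : ∀ (T : ℕ → GT) (π : ∀ i, TMap (T (i + 1)) (T i)) (m : ℕ)
      (_ : ∀ i s t, (T (i + 1)).lev s ≤ m + i → (π i).f s = (π i).f t → s = t)
      (_ : ∀ i t, (T i).lev t ≤ m + i → ∃ s, (π i).f s = t),
      ∃ (L : GT) (ρ : ∀ i, TMap L (T i)),
        (∀ i t, (π i).f ((ρ (i + 1)).f t) = (ρ i).f t) ∧
        (∀ i s t, L.lev s ≤ m + i → (ρ i).f s = (ρ i).f t → s = t) ∧
        (∀ i t, (T i).lev t ≤ m + i → ∃ s, (ρ i).f s = t))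
    (hLS : ∀ (T : ℕ → GT) (π : ∀ i, TMap (T (i + 1)) (T i)) (m : ℕ)
      (_ : ∀ i, (π i).IsCov (m + i)) (L : GT) (ρ : ∀ i, TMap L (T i))
      (_ : ∀ i t, (π i).f ((ρ (i + 1)).f t) = (ρ i).f t)
      (_ : ∀ i s t, L.lev s ≤ m + i → (ρ i).f s = (ρ i).f t → s = t)
      (_ : ∀ i t, (T i).lev t ≤ m + i → ∃ s, (ρ i).f s = t) (i : ℕ) (P : Bool),
      ∃ φ : L.Strat → (T i).Strat, (ρ i).Good (m + i) P φ)
    (hU : ∀ (T : GT) (A : Set T.V), (∀ t u, T.IsChild t u → t ∈ A → u ∈ A) → ∀ m : ℕ,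
      ∃ (T' : GT) (π : TMap T' T), π.IsCov m ∧ Dec {x : T'.Play | ∀ n, π.f (x.1 n) ∉ A})
    {T : GT} {X : ℕ → Set T.Play} (h : ∀ i, UU (X i)) : UU (⋃ i, X i) := by
  classical
  intro T' f m
  -- the sequence of trees
  choose sT sπ hcov hdec using fun (i : ℕ) (p : Σ S : GT, TMap S T') =>
    h i p.1 (f.comp p.2) (m + i)
  let seq : ℕ → Σ S : GT, TMap S T' := fun n =>
    Nat.rec ⟨T', TMap.id T'⟩ (fun i p => ⟨sT i p, p.2.comp (sπ i p)⟩) n
  have seq0 : seq 0 = ⟨T', TMap.id T'⟩ := rfl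
  have seqs : ∀ i, seq (i + 1) = ⟨sT i (seq i), (seq i).2.comp (sπ i (seq i))⟩ := fun i => rfl
  let TT : ℕ → GT := fun i => (seq i).1
  let pp : ∀ i, TMap (TT (i + 1)) (TT i) := fun i => sπ i (seq i)
  have hpp : ∀ i, (pp i).IsCov (m + i) := fun i => hcov i (seq i)
  obtain ⟨L, ρ, hc, hinj, hsurj⟩ := hLT TT pp m (fun i s t => (hpp i).inj s t)
    (fun i t => (hpp i).surj t)
  have hρ : ∀ i, (ρ i).IsCov (m + i) := fun i =>
    ⟨hinj i, hsurj i, fun P => hLS TT pp m hpp L ρ hc hinj hsurj i P⟩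
  -- compatibility
  have hg : ∀ i (x : L.Play), (seq i).2.play ((ρ i).play x) = (ρ 0).play x := by
    intro i
    induction i with
    | zero => intro x; exact play_ext fun n => rfl
    | succ i ih =>
      intro x
      rw [← ih x]
      refine play_ext fun n => ?_
      show (seq i).2.f ((pp i).f ((ρ (i + 1)).f (x.1 n))) = (seq i).2.f ((ρ i).f (x.1 n))
      rw [hc]
  let Y : Set L.Play := {x | f.play ((ρ 0).play x) ∈ ⋃ i, X i}
  have hDi : ∀ i, Dec {x : L.Play | f.play ((ρ 0).play x) ∈ X i} := by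
    intro i
    have h1 := dec_preimage (ρ (i + 1)) (hdec i (seq i))
    have h2 : {x : L.Play | (ρ (i + 1)).play x ∈
        {x : (sT i (seq i)).Play | (f.comp (seq i).2).play ((sπ i (seq i)).play x) ∈ X i}}
        = {x : L.Play | f.play ((ρ 0).play x) ∈ X i} := by
      ext x
      show (f.comp (seq i).2).play ((sπ i (seq i)).play ((ρ (i + 1)).play x)) ∈ X i ↔
        f.play ((ρ 0).play x) ∈ X i
      have h3 : (f.comp (seq i).2).play ((sπ i (seq i)).play ((ρ (i + 1)).play x))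
          = f.play ((ρ 0).play x) := by
        rw [← hg (i + 1) x]
        exact play_ext fun n => rfl
      rw [h3]
    rw [← h2]
    exact h1
  have hopen : ∀ x ∈ Y, ∃ n, ∀ y : L.Play, y.1 n = x.1 n → y ∈ Y := by
    intro x hx
    obtain ⟨i, hi⟩ := Set.mem_iUnion.1 hx
    obtain ⟨n, hn⟩ := hDi i x
    exact ⟨n, fun y hy => Set.mem_iUnion.2 ⟨i, (hn y hy).2 hi⟩⟩
  let A : Set L.V := {t | ∀ x : L.Play, x.1 (L.lev t) = t → x ∈ Y}
  have hA : ∀ t u, L.IsChild t u → t ∈ A → u ∈ A := by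
    intro t u htu ht x hx
    refine ht x ?_
    have h1 := x.2.2 (L.lev t)
    rw [← htu.2, hx, htu.1] at h1
    exact h1.symm
  have hYA : ∀ x : L.Play, x ∈ Y ↔ ∃ n, x.1 n ∈ A := by
    intro x
    constructor
    · intro hx
      obtain ⟨n, hn⟩ := hopen x hx
      refine ⟨n, fun y hy => hn y ?_⟩
      rw [x.2.1 n] at hy
      exact hy
    · rintro ⟨n, hn⟩
      exact hn x (by rw [x.2.1 n])
  obtain ⟨T'', π, hπ, hD⟩ := hU L A hA m
  refine ⟨T'', (ρ 0).comp π, hcomp (m := m) (hρ 0) hπ, ?_⟩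
  have h1 : {x : T''.Play | f.play (((ρ 0).comp π).play x) ∈ ⋃ i, X i}
      = {x : T''.Play | ∀ n, π.f (x.1 n) ∉ A}ᶜ := by
    ext x
    have h2 : f.play (((ρ 0).comp π).play x) ∈ ⋃ i, X i ↔ π.play x ∈ Y := Iff.rfl
    rw [Set.mem_ofPred_eq, h2, hYA]
    simp only [Set.mem_compl_iff, Set.mem_ofPred_eq, not_forall, not_not]
    rfl
  rw [h1]
  exact dec_compl hD

end Pool.Agent.Helper85.Det
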