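import Pool.Agent.Helper85.BFC.Det.Defs

/-!
# The unravelling tree of a closed set (Martin)

`A` is a set of nodes closed under children (the complement of the closed set of plays: the plays that
meet `A`).  `K` is an even level.  A node of the unravelling tree is `(t, S, o)`:
* `t` is a node of `T`;
* from level `K + 1` on, `S` is a quasi-strategy of the first player at the ancestor of `t` of level `K + 1`;
* from level `K + 2` on, `o` is either a node `v ∈ S ∩ A` comparable with `t`, or a quasi-strategy of the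
  second player in `S`, disjoint from `A`, containing `t`.
-/

set_option autoImplicit false

namespace Pool.Agent.Helper85.Det

open Pool.Agent.Helper85.Det.GT

variable (T : GT) (A : Set T.V) (K : ℕ)

/-- Raw data of the nodes of the unravelling tree. -/
abbrev UDat : Type := T.V × Set T.V × (T.V ⊕ Set T.V)

/-- The valid nodes of the unravelling tree. -/
structure UValid (q : UDat T) : Prop where
  S_low : T.lev q.1 ≤ K → q.2.1 = ∅
  o_low : T.lev q.1 ≤ K + 1 → q.2.2 = Sum.inr ∅
  S_qs : K + 1 ≤ T.lev q.1 → QS false Set.univ (T.anc (K + 1) q.1) q.2.1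
  o_inl : K + 2 ≤ T.lev q.1 → ∀ v, q.2.2 = Sum.inl v →
    v ∈ q.2.1 ∧ v ∈ A ∧ K + 2 ≤ T.lev v ∧
    ((T.lev q.1 ≤ T.lev v ∧ T.anc (T.lev q.1) v = q.1) ∨
      (T.lev v ≤ T.lev q.1 ∧ T.anc (T.lev v) q.1 = v))
  o_inr : K + 2 ≤ T.lev q.1 → ∀ S2, q.2.2 = Sum.inr S2 →
    QS true q.2.1 (T.anc (K + 2) q.1) S2 ∧ q.1 ∈ S2 ∧ ∀ u ∈ S2, u ∉ A

open Classical in
/-- The parent map on raw data. -/
noncomputable def upar (q : UDat T) : UDat T :=
  (T.par q.1, if T.lev q.1 ≤ K + 1 then ∅ else q.2.1,
    if T.lev q.1 ≤ K + 2 then Sum.inr ∅ else q.2.2)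

variable {T A K}

theorem uvalid_low {t : T.V} (h : T.lev t ≤ K) : UValid T A K (t, ∅, Sum.inr ∅) where
  S_low := fun _ => rfl
  o_low := fun _ => rfl
  S_qs := fun h' => absurd h' (by show ¬ (K + 1 ≤ T.lev t); omega)
  o_inl := fun h' => absurd h' (by show ¬ (K + 2 ≤ T.lev t); omega)
  o_inr := fun h' => absurd h' (by show ¬ (K + 2 ≤ T.lev t); omega)

theorem uvalid_mid {t : T.V} {S : Set T.V} (h : T.lev t = K + 1) (hS : QS false Set.univ t S) :
    UValid T A K (t, S, Sum.inr ∅) where
  S_low := fun h' => absurd h' (by show ¬ (T.lev t ≤ K); omega)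
  o_low := fun _ => rfl
  S_qs := fun _ => by
    show QS false Set.univ (T.anc (K + 1) t) S
    rw [anc_self h.le]; exact hS
  o_inl := fun h' => absurd h' (by show ¬ (K + 2 ≤ T.lev t); omega)
  o_inr := fun h' => absurd h' (by show ¬ (K + 2 ≤ T.lev t); omega)

theorem uvalid_inl {t v : T.V} {S : Set T.V} (h : K + 2 ≤ T.lev t)
    (hS : QS false Set.univ (T.anc (K + 1) t) S) (hv : v ∈ S) (hA : v ∈ A) (hl : K + 2 ≤ T.lev v)
    (hc : (T.lev t ≤ T.lev v ∧ T.anc (T.lev t) v = t) ∨ (T.lev v ≤ T.lev t ∧ T.anc (T.lev v) t = v)) :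
    UValid T A K (t, S, Sum.inl v) where
  S_low := fun h' => absurd h' (by show ¬ (T.lev t ≤ K); omega)
  o_low := fun h' => absurd h' (by show ¬ (T.lev t ≤ K + 1); omega)
  S_qs := fun _ => hS
  o_inl := fun _ w hw => by
    have : v = w := Sum.inl.inj hw
    subst this
    exact ⟨hv, hA, hl, hc⟩
  o_inr := fun _ S2 hw => by cases hw

theorem uvalid_inr {t : T.V} {S S2 : Set T.V} (h : K + 2 ≤ T.lev t)
    (hS : QS false Set.univ (T.anc (K + 1) t) S) (hS2 : QS true S (T.anc (K + 2) t) S2) (ht : t ∈ S2)
    (hd : ∀ u ∈ S2, u ∉ A) :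
    UValid T A K (t, S, Sum.inr S2) where
  S_low := fun h' => absurd h' (by show ¬ (T.lev t ≤ K); omega)
  o_low := fun h' => absurd h' (by show ¬ (T.lev t ≤ K + 1); omega)
  S_qs := fun _ => hS
  o_inl := fun _ w hw => by cases hw
  o_inr := fun _ S3 hw => by
    have : S2 = S3 := Sum.inr.inj hw
    subst this
    exact ⟨hS2, ht, hd⟩

theorem upar_valid {q : UDat T} (hq : UValid T A K q) : UValid T A K (upar T K q) := by
  obtain ⟨t, S, o⟩ := q
  have hl := T.lev_par t
  rcases Nat.lt_or_ge (T.lev t) (K + 2) with h | h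
  · have e : upar T K (t, S, o) = (T.par t, ∅, Sum.inr ∅) := by
      unfold upar
      simp only
      rw [if_pos (by omega), if_pos (by omega)]
    rw [e]
    exact uvalid_low (by omega)
  have hS := hq.S_qs (by show K + 1 ≤ T.lev t; omega)
  simp only at hS
  rcases Nat.eq_or_lt_of_le h with h | h
  · have e : upar T K (t, S, o) = (T.par t, S, Sum.inr ∅) := by
      unfold upar
      simp only
      rw [if_neg (by omega), if_pos (by omega)]
    rw [e]
    have h3 : T.anc (K + 1) t = T.par t := by
      rw [← anc_par (by omega)]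
      exact anc_self (by omega)
    rw [h3] at hS
    exact uvalid_mid (by omega) hS
  · have e : upar T K (t, S, o) = (T.par t, S, o) := by
      unfold upar
      simp only
      rw [if_neg (by omega), if_neg (by omega)]
    rw [e]
    rcases o with v | S2
    · obtain ⟨h1, h2, h3, h4⟩ := hq.o_inl (by show K + 2 ≤ T.lev t; omega) v rfl
      simp only at h1 h2 h3 h4
      refine uvalid_inl (by omega) ?_ h1 h2 h3 ?_
      · rw [anc_par (by omega)]; exact hS
      · rcases h4 with ⟨h5, h6⟩ | ⟨h5, h6⟩
        · left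
          refine ⟨by omega, ?_⟩
          rw [hl]
          have h7 : T.lev t = (T.lev t - 1) + 1 := by omega
          have h8 := par_anc (T := T) (n := T.lev t - 1) (t := v) (by omega)
          rw [← h8, ← h7, h6]
        · rcases Nat.eq_or_lt_of_le h5 with h7 | h7
          · left
            have h8 : v = t := by
              rw [← h6, h7, anc_self le_rfl]
            subst h8
            refine ⟨by omega, ?_⟩
            rw [hl]
            have h9 : T.lev v = (T.lev v - 1) + 1 := by omega
            rw [← par_anc (by omega), ← h9, anc_self le_rfl]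
          · right
            refine ⟨by omega, ?_⟩
            rw [anc_par (by omega)]; exact h6
    · obtain ⟨h1, h2, h3⟩ := hq.o_inr (by show K + 2 ≤ T.lev t; omega) S2 rfl
      simp only at h1 h2 h3
      refine uvalid_inr (by omega) ?_ ?_ ?_ h3
      · rw [anc_par (by omega)]; exact hS
      · rw [anc_par (by omega)]; exact h1
      · refine h1.down t h2 ?_
        rw [lev_anc (by omega)]; omega

/-- all nodes above `w` -/
theorem qs_all (T : GT) (w : T.V) : QS false Set.univ w {u | T.lev w ≤ T.lev u ∧ T.anc (T.lev w) u = w} where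
  start := ⟨le_rfl, anc_self le_rfl⟩
  sub := fun _ _ => Set.mem_univ _
  above := fun u hu => hu
  down := fun u hu h => ⟨by rw [T.lev_par]; omega, by rw [anc_par h]; exact hu.2⟩
  own := fun u hu _ => by
    obtain ⟨v, hv⟩ := T.pruned u
    have hv' : T.IsChild u v := hv
    exact ⟨v, ⟨by have := hv.2; have := hu.1; omega, by rw [anc_child hv' hu.1]; exact hu.2⟩, hv'⟩
  opp := fun u hu _ v _ hv => ⟨by have := hv.2; have := hu.1; omega, by rw [anc_child hv hu.1]; exact hu.2⟩

theorem exists_child {q : UDat T} (hK : Nat.bodd K = false)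
    (hA : ∀ t u, T.IsChild t u → t ∈ A → u ∈ A) (hq : UValid T A K q) :
    ∃ q' : UDat T, UValid T A K q' ∧ upar T K q' = q ∧ T.lev q'.1 = T.lev q.1 + 1 := by
  obtain ⟨t, S, o⟩ := q
  simp only
  rcases Nat.lt_or_ge (T.lev t) (K + 1) with h | h
  · have hS : S = ∅ := hq.S_low (by show T.lev t ≤ K; omega)
    have ho : o = Sum.inr ∅ := hq.o_low (by show T.lev t ≤ K + 1; omega)
    subst hS
    subst ho
    obtain ⟨u, hu1, hu2⟩ := T.pruned t
    rcases Nat.eq_or_lt_of_le (Nat.lt_succ_iff.1 h) with h' | h'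
    · refine ⟨(u, {w | T.lev u ≤ T.lev w ∧ T.anc (T.lev u) w = u}, Sum.inr ∅),
        uvalid_mid (by omega) (qs_all T u), ?_, hu2⟩
      unfold upar
      simp only
      rw [if_pos (by omega), if_pos (by omega), hu1]
    · refine ⟨(u, ∅, Sum.inr ∅), uvalid_low (by omega), ?_, hu2⟩
      unfold upar
      simp only
      rw [if_pos (by omega), if_pos (by omega), hu1]
  have hS := hq.S_qs h
  simp only at hS
  rcases Nat.eq_or_lt_of_le h with h | h
  · have ho : o = Sum.inr ∅ := hq.o_low (by show T.lev t ≤ K + 1; omega)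
    subst ho
    rw [anc_self (by omega)] at hS
    have hpar : Nat.bodd (T.lev t) ≠ false := by
      rw [← h, Nat.bodd_succ, hK]; simp
    obtain ⟨w, hw⟩ := T.pruned t
    have hw' : T.IsChild t w := hw
    have hwS : w ∈ S := hS.opp t hS.start hpar w (Set.mem_univ _) hw'
    by_cases hex : ∃ v ∈ S, v ∈ A
    · obtain ⟨v, hvS, hvA⟩ := hex
      obtain ⟨v', hvS', hvA', hl⟩ : ∃ v' ∈ S, v' ∈ A ∧ K + 2 ≤ T.lev v' := by
        have hab := hS.above v hvS
        rcases Nat.eq_or_lt_of_le hab.1 with h1 | h1
        · have h2 : v = t := by rw [← hab.2, h1, anc_self le_rfl]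
          subst h2
          exact ⟨w, hwS, hA _ _ hw' hvA, by have := hw.2; omega⟩
        · exact ⟨v, hvS, hvA, by omega⟩
      have hab := hS.above v' hvS'
      have e1 : T.anc (K + 1) (T.anc (K + 2) v') = t := by
        rw [anc_anc (by omega), h]; exact hab.2
      have e2 : T.lev (T.anc (K + 2) v') = K + 2 := lev_anc hl
      refine ⟨(T.anc (K + 2) v', S, Sum.inl v'),
        uvalid_inl e2.ge (by rw [e1]; exact hS) hvS' hvA' hl (Or.inl ⟨by omega, by rw [e2]⟩), ?_, by simp only; omega⟩
      unfold upar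
      simp only
      rw [if_neg (by omega), if_pos (by omega)]
      have : T.par (T.anc (K + 2) v') = t := by
        rw [par_anc (by omega), h]; exact hab.2
      rw [this]
    · push Not at hex
      have e1 : T.anc (K + 1) w = t := by
        rw [anc_child hw' (by omega), anc_self (by omega)]
      have e2 : T.lev w = K + 2 := by have := hw.2; omega
      have e3 : T.anc (K + 2) w = w := anc_self (by omega)
      refine ⟨(w, S, Sum.inr {u | u ∈ S ∧ T.lev w ≤ T.lev u ∧ T.anc (T.lev w) u = w}),
        uvalid_inr e2.ge (by rw [e1]; exact hS) ?_ ⟨hwS, le_rfl, anc_self le_rfl⟩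
          (fun u hu => hex u hu.1), ?_, by simp only; exact hw.2⟩
      · rw [e3]
        exact
        { start := ⟨hwS, le_rfl, anc_self le_rfl⟩
          sub := fun u hu => hu.1
          above := fun u hu => hu.2
          down := fun u hu h4 => ⟨hS.down u hu.1 (by have := hw.2; omega), by rw [T.lev_par]; omega,
            by rw [anc_par h4]; exact hu.2.2⟩
          own := fun u hu hb => by
            obtain ⟨v, hv⟩ := T.pruned u
            have hv' : T.IsChild u v := hv
            exact ⟨v, ⟨hS.opp u hu.1 (by rw [hb]; simp) v (Set.mem_univ _) hv',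
              by have := hv.2; have := hu.2.1; omega,
              by rw [anc_child hv' hu.2.1]; exact hu.2.2⟩, hv'⟩
          opp := fun u hu _ v hvS hv => ⟨hvS, by have := hv.2; have := hu.2.1; omega,
            by rw [anc_child hv hu.2.1]; exact hu.2.2⟩ }
      · unfold upar
        simp only
        rw [if_neg (by omega), if_pos (by omega), hw.1]
  · rcases o with v | S2
    · obtain ⟨h1, h2, h3, h4⟩ := hq.o_inl h v rfl
      simp only at h1 h2 h3 h4
      have main : ∃ u, T.IsChild t u ∧ ((T.lev u ≤ T.lev v ∧ T.anc (T.lev u) v = u) ∨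
          (T.lev v ≤ T.lev u ∧ T.anc (T.lev v) u = v)) := by
        rcases Nat.lt_or_ge (T.lev t) (T.lev v) with h5 | h5
        · have h6 : T.anc (T.lev t) v = t := by
            rcases h4 with ⟨_, h6⟩ | ⟨h6, _⟩
            · exact h6
            · omega
          have h7 : T.lev (T.anc (T.lev t + 1) v) = T.lev t + 1 := lev_anc h5
          exact ⟨T.anc (T.lev t + 1) v, ⟨by rw [par_anc h5, h6], h7⟩, Or.inl ⟨by omega, by rw [h7]⟩⟩
        · obtain ⟨u, hu⟩ := T.pruned t
          have hu' : T.IsChild t u := hu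
          refine ⟨u, hu', Or.inr ⟨by have := hu.2; omega, ?_⟩⟩
          rw [anc_child hu' h5]
          rcases h4 with ⟨h6, h7⟩ | ⟨_, h7⟩
          · have h8 : T.lev t = T.lev v := le_antisymm h6 h5
            rw [h8, anc_self le_rfl] at h7
            rw [h7, anc_self le_rfl]
          · exact h7
      obtain ⟨u, hu, hc⟩ := main
      refine ⟨(u, S, Sum.inl v), uvalid_inl (by have := hu.2; omega)
        (by rw [anc_child hu (by omega)]; exact hS) h1 h2 h3 hc, ?_, hu.2⟩
      unfold upar
      simp only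
      rw [if_neg (by have := hu.2; omega), if_neg (by have := hu.2; omega), hu.1]
    · obtain ⟨h1, h2, h3⟩ := hq.o_inr h S2 rfl
      simp only at h1 h2 h3
      have main : ∃ u ∈ S2, T.IsChild t u := by
        by_cases hb : Nat.bodd (T.lev t) = true
        · exact h1.own t h2 hb
        · have hb' : Nat.bodd (T.lev t) = false := by simpa using hb
          obtain ⟨u, hu, hu'⟩ := hS.own t (h1.sub h2) hb'
          exact ⟨u, h1.opp t h2 hb u hu hu', hu'⟩
      obtain ⟨u, hu, hu'⟩ := main
      refine ⟨(u, S, Sum.inr S2), uvalid_inr (by have := hu'.2; omega)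
        (by rw [anc_child hu' (by omega)]; exact hS) (by rw [anc_child hu' (by omega)]; exact h1)
        hu h3, ?_, hu'.2⟩
      unfold upar
      simp only
      rw [if_neg (by have := hu'.2; omega), if_neg (by have := hu'.2; omega), hu'.1]

variable (T A K)

/-- The unravelling tree. -/
noncomputable def unr (hK : Nat.bodd K = false) (hA : ∀ t u, T.IsChild t u → t ∈ A → u ∈ A) : GT where
  V := {q : UDat T // UValid T A K q}
  lev := fun q => T.lev q.1.1
  par := fun q => ⟨upar T K q.1, upar_valid q.2⟩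
  root := ⟨(T.root, ∅, Sum.inr ∅), uvalid_low (by rw [T.lev_root]; omega)⟩
  lev_root := T.lev_root
  root_uniq := fun q h => by
    apply Subtype.ext
    have h1 : q.1.1 = T.root := T.root_uniq _ h
    have h2 : q.1.2.1 = ∅ := q.2.S_low (by rw [h]; omega)
    have h3 : q.1.2.2 = Sum.inr ∅ := q.2.o_low (by rw [h]; omega)
    exact Prod.ext h1 (Prod.ext h2 h3)
  lev_par := fun q => T.lev_par q.1.1
  pruned := fun q => by
    obtain ⟨q', h1, h2, h3⟩ := exists_child hK hA q.2
    exact ⟨⟨q', h1⟩, Subtype.ext h2, h3⟩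

variable (hK : Nat.bodd K = false) (hA : ∀ t u, T.IsChild t u → t ∈ A → u ∈ A)

/-- The projection of the unravelling tree. -/
noncomputable def unrMap : TMap (unr T A K hK hA) T where
  f := fun q => q.1.1
  lev_f := fun _ => rfl
  par_f := fun _ => rfl

variable {T A K hK hA}

theorem unr_lev (q : (unr T A K hK hA).V) : (unr T A K hK hA).lev q = T.lev q.1.1 := rfl

theorem unrMap_f (q : (unr T A K hK hA).V) : (unrMap T A K hK hA).f q = q.1.1 := rfl

/-- nodes of level at most `K` are determined by their projection -/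
theorem unr_low {q : (unr T A K hK hA).V} (h : T.lev q.1.1 ≤ K) : q.1 = (q.1.1, ∅, Sum.inr ∅) :=
  Prod.ext rfl (Prod.ext (q.2.S_low h) (q.2.o_low (by omega)))

theorem unr_inj {m : ℕ} (hm : m ≤ K) (s t : (unr T A K hK hA).V)
    (h : (unr T A K hK hA).lev s ≤ m) (e : (unrMap T A K hK hA).f s = (unrMap T A K hK hA).f t) :
    s = t := by
  have e' : s.1.1 = t.1.1 := e
  have h' : T.lev s.1.1 ≤ K := le_trans h hm
  apply Subtype.ext
  rw [unr_low h', unr_low (q := t) (by rw [← e']; exact h'), e']

theorem unr_surj {m : ℕ} (hm : m ≤ K) (t : T.V) (h : T.lev t ≤ m) :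
    ∃ s, (unrMap T A K hK hA).f s = t :=
  ⟨⟨(t, ∅, Sum.inr ∅), uvalid_low (le_trans h hm)⟩, rfl⟩

/-- the child relation of the unravelling tree -/
theorem unr_child_T {q q' : (unr T A K hK hA).V} (h : (unr T A K hK hA).IsChild q q') :
    T.IsChild q.1.1 q'.1.1 := by
  have h1 : upar T K q'.1 = q.1 := congrArg Subtype.val h.1
  exact ⟨by rw [← h1]; rfl, h.2⟩

/-- from level `K + 1` on the first quasi-strategy is kept -/
theorem unr_child_S {q q' : (unr T A K hK hA).V} (h : (unr T A K hK hA).IsChild q q')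
    (hl : K + 1 ≤ T.lev q.1.1) : q'.1.2.1 = q.1.2.1 := by
  have h1 : upar T K q'.1 = q.1 := congrArg Subtype.val h.1
  have h2 : T.lev q'.1.1 = T.lev q.1.1 + 1 := h.2
  rw [← h1]
  unfold upar
  simp only
  rw [if_neg (by omega)]

/-- from level `K + 2` on the option is kept -/
theorem unr_child_o {q q' : (unr T A K hK hA).V} (h : (unr T A K hK hA).IsChild q q')
    (hl : K + 2 ≤ T.lev q.1.1) : q'.1.2.2 = q.1.2.2 := by
  have h1 : upar T K q'.1 = q.1 := congrArg Subtype.val h.1
  have h2 : T.lev q'.1.1 = T.lev q.1.1 + 1 := h.2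
  rw [← h1]
  unfold upar
  simp only
  rw [if_neg (by omega)]

/-- to be a child, the projection and the inherited data are enough -/
theorem unr_isChild {q q' : (unr T A K hK hA).V} (h : T.IsChild q.1.1 q'.1.1)
    (h1 : K + 1 ≤ T.lev q.1.1 → q'.1.2.1 = q.1.2.1)
    (h2 : K + 2 ≤ T.lev q.1.1 → q'.1.2.2 = q.1.2.2) : (unr T A K hK hA).IsChild q q' := by
  refine ⟨?_, h.2⟩
  apply Subtype.ext
  show upar T K q'.1 = q.1
  have hl := h.2
  unfold upar
  refine Prod.ext h.1 (Prod.ext ?_ ?_)
  · simp only
    split_ifs with h3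
    · exact (q.2.S_low (by omega)).symm
    · exact h1 (by omega)
  · simp only
    split_ifs with h3
    · exact (q.2.o_low (by omega)).symm
    · exact h2 (by omega)

/-- two children of a node of level at least `K + 2` with the same projection are equal -/
theorem unr_child_ext {q q' q'' : (unr T A K hK hA).V} (h : (unr T A K hK hA).IsChild q q')
    (h' : (unr T A K hK hA).IsChild q q'') (hl : K + 2 ≤ T.lev q.1.1) (e : q'.1.1 = q''.1.1) :
    q' = q'' :=
  Subtype.ext (Prod.ext e (Prod.ext
    ((unr_child_S h (by omega)).trans (unr_child_S h' (by omega)).symm)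
    ((unr_child_o h hl).trans (unr_child_o h' hl).symm)))

/-- the play of the unravelling tree over `x` with data `S`, `o` -/
theorem unr_play (x : T.Play) (S : Set T.V) (o : T.V ⊕ Set T.V)
    (h1 : QS false Set.univ (x.1 (K + 1)) S)
    (h2 : ∀ v, o = Sum.inl v → v ∈ S ∧ v ∈ A ∧ K + 2 ≤ T.lev v ∧ x.1 (T.lev v) = v)
    (h3 : ∀ S2, o = Sum.inr S2 → QS true S (x.1 (K + 2)) S2 ∧ (∀ n, K + 2 ≤ n → x.1 n ∈ S2) ∧
      ∀ u ∈ S2, u ∉ A) :
    ∃ y : (unr T A K hK hA).Play, (unrMap T A K hK hA).play y = x ∧
      (∀ n, K + 1 ≤ n → (y.1 n).1.2.1 = S) ∧ (∀ n, K + 2 ≤ n → (y.1 n).1.2.2 = o) := by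
  classical
  have hv : ∀ n, UValid T A K (x.1 n, if n ≤ K then ∅ else S, if n ≤ K + 1 then Sum.inr ∅ else o) := by
    intro n
    have hln := x.2.1 n
    rcases Nat.lt_or_ge n (K + 1) with h | h
    · rw [if_pos (by omega), if_pos (by omega)]
      exact uvalid_low (by omega)
    · rcases Nat.eq_or_lt_of_le h with h | h
      · rw [if_neg (by omega), if_pos (by omega)]
        exact uvalid_mid (by omega) (by rw [← h]; exact h1)
      · rw [if_neg (by omega), if_neg (by omega)]
        have e1 : T.anc (K + 1) (x.1 n) = x.1 (K + 1) := play_anc x (by omega)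
        have e2 : T.anc (K + 2) (x.1 n) = x.1 (K + 2) := play_anc x (by omega)
        rcases o with v | S2
        · obtain ⟨h4, h5, h6, h7⟩ := h2 v rfl
          refine uvalid_inl (by omega) (by rw [e1]; exact h1) h4 h5 h6 ?_
          rcases Nat.le_total n (T.lev v) with h8 | h8
          · left
            refine ⟨by omega, ?_⟩
            rw [hln]
            conv_lhs => rw [← h7]
            exact play_anc x h8
          · right
            exact ⟨by omega, by rw [play_anc x h8, h7]⟩
        · obtain ⟨h4, h5, h6⟩ := h3 S2 rfl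
          exact uvalid_inr (by omega) (by rw [e1]; exact h1) (by rw [e2]; exact h4)
            (h5 n (by omega)) h6
  refine ⟨⟨fun n => ⟨_, hv n⟩, fun n => x.2.1 n, fun n => ?_⟩, ?_, ?_, ?_⟩
  · refine (unr_isChild (q := ⟨_, hv n⟩) (q' := ⟨_, hv (n + 1)⟩) (play_child x n) ?_ ?_).1
    · intro h
      have hl : T.lev (x.1 n) = n := x.2.1 n
      have h' : K + 1 ≤ n := by rw [← hl]; exact h
      show (if n + 1 ≤ K then ∅ else S) = (if n ≤ K then ∅ else S)
      rw [if_neg (by omega), if_neg (by omega)]
    · intro h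
      have hl : T.lev (x.1 n) = n := x.2.1 n
      have h' : K + 2 ≤ n := by rw [← hl]; exact h
      show (if n + 1 ≤ K + 1 then Sum.inr ∅ else o) = (if n ≤ K + 1 then Sum.inr ∅ else o)
      rw [if_neg (by omega), if_neg (by omega)]
  · exact play_ext fun n => rfl
  · intro n hn
    exact if_neg (by omega)
  · intro n hn
    exact if_neg (by omega)

/-- the closed set is decided after level `K + 2` in the unravelling tree -/
theorem unr_dec : Dec {x : (unr T A K hK hA).Play | ∀ n, (unrMap T A K hK hA).f (x.1 n) ∉ A} := by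
  intro x
  refine ⟨K + 2, fun y hxy => ?_⟩
  have key : ∀ z : (unr T A K hK hA).Play,
      (z ∈ {x : (unr T A K hK hA).Play | ∀ n, (unrMap T A K hK hA).f (x.1 n) ∉ A} ↔
        ∃ S2, (z.1 (K + 2)).1.2.2 = Sum.inr S2) := by
    intro z
    have hlev : ∀ n, T.lev (z.1 n).1.1 = n := fun n => z.2.1 n
    have ho : ∀ n, K + 2 ≤ n → (z.1 n).1.2.2 = (z.1 (K + 2)).1.2.2 := by
      intro n hn
      induction n, hn using Nat.le_induction with
      | base => rfl
      | succ n hn ih =>
        rw [← ih]
        exact unr_child_o (play_child z n) (by rw [hlev]; exact hn)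
    constructor
    · intro hz
      rcases hc : (z.1 (K + 2)).1.2.2 with v | S2
      · exfalso
        have hL : K + 2 ≤ T.lev v := by
          exact ((z.1 (K + 2)).2.o_inl (by rw [hlev]) v hc).2.2.1
        obtain ⟨h1, h2, h3, h4⟩ := (z.1 (T.lev v)).2.o_inl (by rw [hlev]; exact hL) v
          ((ho _ hL).trans hc)
        rw [hlev] at h4
        have h5 : (z.1 (T.lev v)).1.1 = v := by
          rcases h4 with ⟨_, h6⟩ | ⟨_, h6⟩
          · rw [← h6, anc_self le_rfl]
          · rw [anc_self (by rw [hlev])] at h6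
            exact h6
        exact hz (T.lev v) (by rw [unrMap_f, h5]; exact h2)
      · exact ⟨S2, rfl⟩
    · rintro ⟨S2, hS2⟩ n hn
      have hup : ∀ k, (z.1 (n + k)).1.1 ∈ A := by
        intro k
        induction k with
        | zero => exact hn
        | succ k ih => exact hA _ _ (unr_child_T (play_child z (n + k))) ih
      have h1 := (z.1 (n + (K + 2))).2.o_inr (by rw [hlev]; omega) S2
        ((ho _ (by omega)).trans hS2)
      exact h1.2.2 _ h1.2.1 (hup (K + 2))
  rw [key, key, hxy]

end Pool.Agent.Helper85.Det
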