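import Pool.Agent.Helper85.BFC.Det.Unr

/-!
# Unravelling of closed sets (core, with the two strategy transfers as hypotheses)
-/

set_option autoImplicit false

namespace Pool.Agent.Helper85.Det

open Pool.Agent.Helper85.Det.GT

theorem unravel_core
    (hI : ∀ (T : GT) (A : Set T.V) (K : ℕ) (hK : Nat.bodd K = false)
      (hA : ∀ t u, T.IsChild t u → t ∈ A → u ∈ A) (m : ℕ), m ≤ K →
      ∃ φ, (unrMap T A K hK hA).Good m false φ)
    (hII : ∀ (T : GT) (A : Set T.V) (K : ℕ) (hK : Nat.bodd K = false)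
      (hA : ∀ t u, T.IsChild t u → t ∈ A → u ∈ A) (m : ℕ), m ≤ K →
      ∃ φ, (unrMap T A K hK hA).Good m true φ)
    (T : GT) (A : Set T.V) (hA : ∀ t u, T.IsChild t u → t ∈ A → u ∈ A) (m : ℕ) :
    ∃ (T' : GT) (π : TMap T' T), π.IsCov m ∧ Dec {x : T'.Play | ∀ n, π.f (x.1 n) ∉ A} := by
  have hK : Nat.bodd (2 * m) = false := by simp
  have hm : m ≤ 2 * m := by omega
  refine ⟨unr T A (2 * m) hK hA, unrMap T A (2 * m) hK hA, ⟨?_, ?_, ?_⟩, unr_dec⟩
  · exact fun s t hs e => unr_inj hm s t hs e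
  · exact fun t ht => unr_surj hm t ht
  · intro P
    cases P
    · exact hI T A (2 * m) hK hA m hm
    · exact hII T A (2 * m) hK hA m hm

end Pool.Agent.Helper85.Det
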